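import Pool.Agent.MP_c20a26_lc.Thin

set_option autoImplicit false

namespace Pool.Agent.MP_c20a26_lc

abbrev FG := FreeGroup (Option ℕ)
abbrev Gam := FG × FG
abbrev Q3 := Option Bool

/-- The group element of a positive word. -/
def pw (l : List (Option ℕ)) : FG := FreeGroup.mk (l.map fun a => (a, true))

theorem pw_nil : pw [] = 1 := rfl

theorem pw_append (l l' : List (Option ℕ)) : pw (l ++ l') = pw l * pw l' := by
  simp [pw, FreeGroup.mul_mk]

theorem pw_inj {l l' : List (Option ℕ)} (h : pw l = pw l') : l = l' := by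
  have red : ∀ l : List (Option ℕ), FreeGroup.IsReduced (l.map fun a => (a, true)) := by
    intro l
    unfold FreeGroup.IsReduced
    rw [List.isChain_map]
    exact List.Pairwise.isChain (List.pairwise_of_forall fun _ _ _ => rfl)
  have := FreeGroup.reduce.sound h
  rw [(red l).reduce_eq, (red l').reduce_eq] at this
  exact List.map_injective_iff.2 (fun a b hab => (Prod.mk.inj hab).1) this

def sm (w : List ℕ) : List (Option ℕ) := w.map some

@[simp] theorem sm_nil : sm [] = [] := rfl
@[simp] theorem sm_cons (a : ℕ) (w : List ℕ) : sm (a :: w) = some a :: sm w := rfl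
@[simp] theorem sm_append (w w' : List ℕ) : sm (w ++ w') = sm w ++ sm w' := List.map_append
@[simp] theorem sm_length (w : List ℕ) : (sm w).length = w.length := List.length_map _

/-- Transitions of the automaton over the product of two free groups. -/
inductive Tr (H : Grammar) : Q3 → Option ℕ → Gam → Q3 → Prop
  | stay (q : Q3) : Tr H q none 1 q
  | read {a : ℕ} : a ∈ H.T → Tr H none (some a) (pw [some a], 1) none
  | go1 : Tr H none none (pw [none], 1) (some false)
  | copy (a : Option ℕ) : Tr H (some false) none (pw [a], pw [a]) (some false)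
  | rule {p : List ℕ × List ℕ} : p ∈ H.P →
      Tr H (some false) none (pw (sm p.1), pw (sm p.2)) (some false)
  | go2 : Tr H (some false) none (1, pw [some H.S, none]) (some true)
  | back (a : Option ℕ) : Tr H (some true) none ((pw [a])⁻¹, (pw [a])⁻¹) (some true)

theorem Tr.mem {H : Grammar} {q q' : Q3} {a : ℕ} {g : Gam} (h : Tr H q (some a) g q') :
    a ∈ H.T := by
  cases h
  assumption

inductive APath (H : Grammar) : Q3 → List ℕ → Gam → Q3 → Prop
  | nil (q : Q3) : APath H q [] 1 q
  | cons {q q₁ q₂ : Q3} {o : Option ℕ} {g g' : Gam} {v : List ℕ} : Tr H q o g q₁ →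
      APath H q₁ v g' q₂ → APath H q (o.toList ++ v) (g * g') q₂

inductive Dom (H : Grammar) : List (Option ℕ) → List (Option ℕ) → Prop
  | nil : Dom H [] []
  | copy (a : Option ℕ) {U V : List (Option ℕ)} : Dom H U V → Dom H (a :: U) (a :: V)
  | rule {p : List ℕ × List ℕ} {U V : List (Option ℕ)} : p ∈ H.P → Dom H U V →
      Dom H (sm p.1 ++ U) (sm p.2 ++ V)

theorem Dom.copies {H : Grammar} {U V : List (Option ℕ)} (h : Dom H U V) :
    ∀ l : List (Option ℕ), Dom H (l ++ U) (l ++ V)
  | [] => h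
  | a :: l => Dom.copy a (h.copies l)

theorem sm_split : ∀ (v β : List ℕ) (U V : List (Option ℕ)),
    sm v ++ none :: U = sm β ++ V → ∃ v₀, v = β ++ v₀ ∧ sm v₀ ++ none :: U = V
  | v, [], U, V, h => ⟨v, rfl, by simpa using h⟩
  | [], b :: β, U, V, h => by simp at h
  | a :: v, b :: β, U, V, h => by
    simp only [sm_cons, List.cons_append, List.cons.injEq, Option.some.injEq] at h
    obtain ⟨v₀, e1, e2⟩ := sm_split v β U V h.2
    exact ⟨v₀, by simp [h.1, e1], e2⟩

theorem der_nil {H : Grammar} {x : List ℕ} (h : Relation.ReflTransGen H.Step [] x) : x = [] := by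
  induction h with
  | refl => rfl
  | tail _ hs ih =>
    obtain ⟨x, y, p, hp, e, -⟩ := hs
    have := lhs_ne hp
    have e' := congrArg List.length (ih.symm.trans e)
    simp only [List.length_nil, List.length_append] at e'
    omega

theorem Dom.sound {H : Grammar} {U V : List (Option ℕ)} (h : Dom H U V) :
    ∀ v x x' : List ℕ, sm v ++ none :: (sm x ++ U) = V ++ [some H.S, none] →
      Relation.ReflTransGen H.Step x x' → Relation.ReflTransGen H.Step [H.S] (x' ++ v) := by
  induction h with
  | nil =>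
    intro v x x' e hx
    obtain ⟨v₀, rfl, e2⟩ := sm_split v [H.S] _ [none] e
    cases v₀ with
    | nil =>
      have : x = [] := by simpa [sm] using e2
      subst this
      rw [der_nil hx]
      exact Relation.ReflTransGen.refl
    | cons a v₀ => simp at e2
  | @copy a U V _ ih =>
    intro v x x' e hx
    cases a with
    | none =>
      cases v with
      | nil =>
        simp only [sm_nil, List.nil_append, List.cons_append, List.cons.injEq, true_and] at e
        have := ih x [] [] (by simpa using e) Relation.ReflTransGen.refl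
        simpa using this.trans hx
      | cons b v => simp at e
    | some a =>
      obtain ⟨v₀, rfl, e2⟩ := sm_split v [a] _ (V ++ [some H.S, none]) e
      have := ih v₀ (x ++ [a]) (x' ++ [a]) (by simpa using e2)
        (by simpa using der_ctx hx [] [a])
      simpa using this
  | @rule p U V hp _ ih =>
    intro v x x' e hx
    obtain ⟨v₀, rfl, e2⟩ := sm_split v p.2 _ (V ++ [some H.S, none]) (by simpa using e)
    have := ih v₀ (x ++ p.1) (x' ++ p.2) (by simpa using e2) (by
      have h1 := der_ctx hx [] p.1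
      have h2 := der_ctx (der_rule (l := p.1) (r := p.2) hp) x' []
      simp only [List.nil_append, List.append_nil] at h1 h2
      exact h1.trans h2)
    simpa using this

theorem dom_complete {H : Grammar} {w : List ℕ} (h : Relation.ReflTransGen H.Step [H.S] w) :
    (∀ a ∈ w, a ∈ H.V) ∧ ∃ U V, Dom H U V ∧ sm w ++ none :: U = V ++ [some H.S, none] ∧
      ∀ a, some a ∈ U → a ∈ H.V := by
  induction h with
  | refl => exact ⟨by simpa using H.S_mem, [], [], Dom.nil, rfl, by simp⟩
  | tail _ hs ih =>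
    obtain ⟨x, y, p, hp, rfl, rfl⟩ := hs
    obtain ⟨h0, U, V, hD, e, hU⟩ := ih
    refine ⟨?_, sm x ++ (sm p.1 ++ (sm y ++ none :: U)), sm x ++ (sm p.2 ++ (sm y ++ none :: V)),
      (Dom.rule hp ((Dom.copy none hD).copies _)).copies _, ?_, ?_⟩
    · intro a ha
      simp only [List.mem_append] at ha h0
      rcases ha with (ha | ha) | ha
      · exact h0 a (Or.inl (Or.inl ha))
      · exact H.rhs_mem p hp a ha
      · exact h0 a (Or.inr ha)
    · simp only [sm_append, List.append_assoc, List.cons_append] at e ⊢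
      rw [e]
    · intro a ha
      simp only [List.mem_append, List.mem_cons, sm, List.mem_map, Option.some.injEq,
        exists_eq_right, reduceCtorEq, false_or] at ha h0
      rcases ha with ha | ha | ha | ha
      · exact h0 a (Or.inl (Or.inl ha))
      · exact h0 a (Or.inl (Or.inr ha))
      · exact h0 a (Or.inr ha)
      · exact hU a ha

def AInv (H : Grammar) : Q3 → List ℕ → Gam → Prop
  | none, v, g => (∀ a ∈ v, a ∈ H.T) ∧ ∃ U V y, Dom H U V ∧
      g = (pw (sm v ++ none :: U) * (pw y)⁻¹, pw (V ++ [some H.S, none]) * (pw y)⁻¹)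
  | some false, v, g => v = [] ∧ ∃ U V y, Dom H U V ∧
      g = (pw U * (pw y)⁻¹, pw (V ++ [some H.S, none]) * (pw y)⁻¹)
  | some true, v, g => v = [] ∧ ∃ y, g = ((pw y)⁻¹, (pw y)⁻¹)

theorem APath.inv {H : Grammar} {q q' : Q3} {v : List ℕ} {g : Gam} (h : APath H q v g q')
    (hq : q' = some true) : AInv H q v g := by
  induction h with
  | nil => subst hq; exact ⟨rfl, [], rfl⟩
  | cons h1 _ ih =>
    have ih := ih hq
    cases h1 with
    | stay => simpa using ih
    | @read a ha =>
      obtain ⟨h0, U, V, y, hD, rfl⟩ := ih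
      refine ⟨?_, U, V, y, hD, ?_⟩
      · simpa [ha] using h0
      · simp [← mul_assoc, ← pw_append]
    | go1 =>
      obtain ⟨rfl, U, V, y, hD, rfl⟩ := ih
      exact ⟨by simp, U, V, y, hD, by simp [← mul_assoc, ← pw_append]⟩
    | copy a =>
      obtain ⟨rfl, U, V, y, hD, rfl⟩ := ih
      exact ⟨rfl, _, _, y, Dom.copy a hD, by simp [← mul_assoc, ← pw_append]⟩
    | rule hp =>
      obtain ⟨rfl, U, V, y, hD, rfl⟩ := ih
      exact ⟨rfl, _, _, y, Dom.rule hp hD, by simp [← mul_assoc, ← pw_append]⟩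
    | go2 =>
      obtain ⟨rfl, y, rfl⟩ := ih
      exact ⟨rfl, [], [], y, Dom.nil, by simp [pw_nil]⟩
    | back a =>
      obtain ⟨rfl, y, rfl⟩ := ih
      exact ⟨rfl, y ++ [a], by simp [pw_append]⟩

theorem APath.sound {H : Grammar} {w : List ℕ} (h : APath H none w 1 (some true)) :
    w ∈ H.lang := by
  obtain ⟨h0, U, V, y, hD, e⟩ := h.inv rfl
  have e1 := pw_inj (mul_inv_eq_one.1 (congrArg Prod.fst e).symm)
  have e2 := pw_inj (mul_inv_eq_one.1 (congrArg Prod.snd e).symm)
  exact ⟨h0, by simpa using hD.sound w [] [] (by simpa using e1.trans e2.symm) .refl⟩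

abbrev Pos := Q3 × ℕ × ℕ

/-- Group value of a pair of positions on the word `X`. -/
def gv (X : List (Option ℕ)) (i : ℕ × ℕ) : Gam := (pw (X.take i.1), pw (X.take i.2))

structure OKs (H : Grammar) (X : List (Option ℕ)) (K : ℕ) (φ : Pos) (o : Option ℕ) (φ' : Pos) :
    Prop where
  tr : Tr H φ.1 o ((gv X φ.2)⁻¹ * gv X φ'.2) φ'.1
  c1 : φ.2.1 ≤ φ'.2.1 + K
  c2 : φ'.2.1 ≤ φ.2.1 + K
  c3 : φ.2.2 ≤ φ'.2.2 + K
  c4 : φ'.2.2 ≤ φ.2.2 + K

inductive PPath (H : Grammar) (X : List (Option ℕ)) (K : ℕ) : Pos → List (Option ℕ) → Pos → Prop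
  | nil (φ : Pos) : PPath H X K φ [] φ
  | cons {φ φ₁ φ₂ : Pos} {o : Option ℕ} {os : List (Option ℕ)} : OKs H X K φ o φ₁ →
      PPath H X K φ₁ os φ₂ → PPath H X K φ (o :: os) φ₂

theorem PPath.append {H : Grammar} {X : List (Option ℕ)} {K : ℕ} {a b c : Pos}
    {l l' : List (Option ℕ)} (h : PPath H X K a l b) (h' : PPath H X K b l' c) :
    PPath H X K a (l ++ l') c := by
  induction h with
  | nil => exact h'
  | cons h1 _ ih => exact PPath.cons h1 (ih h')

theorem PPath.fn {H : Grammar} {X : List (Option ℕ)} {K : ℕ} {a b : Pos}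
    {l : List (Option ℕ)} (h : PPath H X K a l b) :
    ∃ ψ : ℕ → Pos, ψ 0 = a ∧ ψ l.length = b ∧
      ∀ s (hs : s < l.length), OKs H X K (ψ s) l[s] (ψ (s + 1)) := by
  induction h with
  | nil φ => exact ⟨fun _ => φ, rfl, rfl, by simp⟩
  | @cons φ φ₁ φ₂ o os h1 _ ih =>
    obtain ⟨ψ, e1, e2, e3⟩ := ih
    refine ⟨fun s => Nat.casesOn s φ ψ, rfl, e2, fun s hs => ?_⟩
    cases s with
    | zero => simpa [e1] using h1
    | succ s => simpa using e3 s (by simpa using hs)

theorem oks_up {H : Grammar} {X : List (Option ℕ)} {K : ℕ} {q q' : Q3} {o : Option ℕ}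
    {d₁ u r₁ d₂ v r₂ : List (Option ℕ)} (h1 : X = d₁ ++ (u ++ r₁)) (h2 : X = d₂ ++ (v ++ r₂))
    (hu : u.length ≤ K) (hv : v.length ≤ K) (h : Tr H q o (pw u, pw v) q') :
    OKs H X K (q, d₁.length, d₂.length) o (q', (d₁ ++ u).length, (d₂ ++ v).length) := by
  refine ⟨?_, by simp only [List.length_append]; omega, by simp only [List.length_append]; omega,
    by simp only [List.length_append]; omega, by simp only [List.length_append]; omega⟩
  have a1 : X.take d₁.length = d₁ := by rw [h1]; simp
  have a2 : X.take d₂.length = d₂ := by rw [h2]; simp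
  have a3 : X.take (d₁ ++ u).length = d₁ ++ u := by
    rw [h1, ← List.append_assoc]; exact List.take_left
  have a4 : X.take (d₂ ++ v).length = d₂ ++ v := by
    rw [h2, ← List.append_assoc]; exact List.take_left
  simp only [gv, a1, a2, a3, a4, pw_append]
  simpa using h

theorem ppath_read {H : Grammar} {X : List (Option ℕ)} {K : ℕ} (hK : 1 ≤ K) :
    ∀ (v : List ℕ) (d r : List (Option ℕ)), (∀ a ∈ v, a ∈ H.T) → X = d ++ (sm v ++ r) →
      PPath H X K (none, d.length, 0) (sm v) (none, (d ++ sm v).length, 0)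
  | [], d, r, _, _ => by simpa using PPath.nil _
  | a :: v, d, r, hv, e => by
    have h1 := oks_up (H := H) (K := K) (d₁ := d) (u := [some a]) (r₁ := sm v ++ r) (d₂ := [])
      (v := []) (r₂ := X) e rfl hK (by simp) (Tr.read (hv a (by simp)))
    have h2 := ppath_read (X := X) hK v (d ++ [some a]) r (fun b hb => hv b (by simp [hb]))
      (by simp [e])
    simpa using PPath.cons h1 h2

theorem ppath_dom {H : Grammar} {X : List (Option ℕ)} {K : ℕ} (hK : 1 ≤ K)
    (hP : ∀ p ∈ H.P, p.1.length ≤ K ∧ p.2.length ≤ K) {U V : List (Option ℕ)} (h : Dom H U V) :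
    ∀ d₁ r₁ d₂ r₂ : List (Option ℕ), X = d₁ ++ (U ++ r₁) → X = d₂ ++ (V ++ r₂) →
      ∃ os, PPath H X K (some false, d₁.length, d₂.length) os
        (some false, (d₁ ++ U).length, (d₂ ++ V).length) ∧ os.filterMap id = [] := by
  induction h with
  | nil => intro d₁ r₁ d₂ r₂ _ _; exact ⟨[], by simpa using PPath.nil _, rfl⟩
  | @copy a U V _ ih =>
    intro d₁ r₁ d₂ r₂ e1 e2
    obtain ⟨os, h2, h3⟩ := ih (d₁ ++ [a]) r₁ (d₂ ++ [a]) r₂ (by simp [e1]) (by simp [e2])
    have h1 := oks_up (H := H) (K := K) (u := [a]) (r₁ := U ++ r₁) (v := [a]) (r₂ := V ++ r₂)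
      e1 e2 hK hK (Tr.copy a)
    exact ⟨none :: os, by simpa using PPath.cons h1 h2, by simpa using h3⟩
  | @rule p U V hp _ ih =>
    intro d₁ r₁ d₂ r₂ e1 e2
    obtain ⟨os, h2, h3⟩ := ih (d₁ ++ sm p.1) r₁ (d₂ ++ sm p.2) r₂ (by simp [e1]) (by simp [e2])
    have h1 := oks_up (H := H) (K := K) (X := X) (d₁ := d₁) (d₂ := d₂) (u := sm p.1)
      (r₁ := U ++ r₁) (v := sm p.2) (r₂ := V ++ r₂)
      (by simp [e1]) (by simp [e2]) (by simpa using (hP p hp).1) (by simpa using (hP p hp).2)
      (Tr.rule hp)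
    exact ⟨none :: os, by simpa using PPath.cons h1 h2, by simpa using h3⟩

theorem ppath_back {H : Grammar} {X : List (Option ℕ)} {K : ℕ} (hK : 1 ≤ K) :
    ∀ i, i ≤ X.length → ∃ os, PPath H X K (some true, i, i) os (some true, 0, 0) ∧
      os.filterMap id = []
  | 0, _ => ⟨[], PPath.nil _, rfl⟩
  | i + 1, hi => by
    obtain ⟨os, h2, h3⟩ := ppath_back (H := H) (X := X) hK i (by omega)
    refine ⟨none :: os, PPath.cons (φ₁ := (some true, i, i))
      ⟨?_, by simp only; omega, by simp only; omega,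
      by simp only; omega, by simp only; omega⟩ h2, by simpa using h3⟩
    have : X.take (i + 1) = X.take i ++ [X[i]] := by simp
    simp only [gv, this, pw_append]
    simpa using Tr.back (H := H) X[i]

theorem auto_complete (H : Grammar) : ∃ K : ℕ, ∀ w ∈ H.lang, ∃ X os,
    (∀ a, some a ∈ X → a ∈ H.V) ∧ PPath H X K (none, 0, 0) os (some true, 0, 0) ∧
      os.filterMap id = w := by
  refine ⟨H.P.sup (fun p => p.1.length + p.2.length) + 2, ?_⟩
  rintro w ⟨hT, hd⟩
  set K := H.P.sup (fun p => p.1.length + p.2.length) + 2 with hK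
  have hP : ∀ p ∈ H.P, p.1.length ≤ K ∧ p.2.length ≤ K := by
    intro p hp
    have : p.1.length + p.2.length ≤ H.P.sup (fun p => p.1.length + p.2.length) :=
      Finset.le_sup (f := fun p : List ℕ × List ℕ => p.1.length + p.2.length) hp
    omega
  obtain ⟨h0, U, V, hD, e, hU⟩ := dom_complete hd
  set X := sm w ++ none :: U with hX
  have p1 := ppath_read (H := H) (X := X) (K := K) (by omega) w [] (none :: U) hT rfl
  have p2 := oks_up (H := H) (K := K) (X := X) (d₁ := sm w) (u := [none]) (r₁ := U) (d₂ := [])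
    (v := []) (r₂ := X) rfl rfl (by simp only [List.length_singleton]; omega) (by simp) Tr.go1
  obtain ⟨os3, p3, q3⟩ := ppath_dom (X := X) (by omega) hP hD (sm w ++ [none]) [] []
    [some H.S, none] (by simp [hX]) (by simpa using e)
  have p4 := oks_up (H := H) (K := K) (X := X) (d₁ := X) (u := []) (r₁ := []) (d₂ := V)
    (v := [some H.S, none]) (r₂ := []) (by simp) (by simpa using e) (by simp)
    (by simp only [List.length_cons, List.length_nil]; omega) Tr.go2
  obtain ⟨os5, p5, q5⟩ := ppath_back (H := H) (X := X) (K := K) (by omega) X.length le_rfl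
  rw [← e, List.append_nil] at p4
  rw [show sm w ++ [none] ++ U = X by simp [hX], List.nil_append] at p3
  refine ⟨X, _, ?_, p1.append (PPath.cons p2 (p3.append (PPath.cons p4 p5))), ?_⟩
  · intro a ha
    simp only [hX, List.mem_append, List.mem_cons, sm, List.mem_map, Option.some.injEq,
      exists_eq_right, reduceCtorEq, false_or] at ha
    exact ha.elim (h0 a) (hU a)
  · rw [List.filterMap_append, List.filterMap_cons_none rfl, List.filterMap_append, q3,
      List.filterMap_cons_none rfl, q5]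
    simp [sm]

theorem thick_arc (D : List St) {a b K n : ℕ} (hab : a + 2 ≤ b)
    (hc : cd D a b ≤ K) (hno : ∀ m, a < m → m < b → K < cd D a m ∨ K < cd D m b)
    (hn : 2 * n < K) :
    ∃ σ : ℕ → ℕ, σ 0 = 0 ∧ (∀ m, b ≤ m → σ m = n) ∧ (∀ m, σ (m + 1) = σ m ∨ σ (m + 1) = σ m + 1) ∧
      (∀ m, σ m ≤ n) ∧ ∀ i j, (σ i ≤ σ j + cd D i j ∧ σ j ≤ σ i + cd D i j) ∨
        σ i ≤ 2 * cd D i j ∨ n ≤ σ i + 2 * cd D i j := by
  classical
  have hK : K ≤ cd D a b := by
    have h1 := hno (a + 1) (by omega) (by omega)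
    have h2 := cd_succ D a
    have h3 := cd_tri D (a + 1) a b
    rw [cd_comm D (a + 1) a] at h3
    omega
  set b₁ := Nat.findGreatest (fun m => cd D a m ≤ n) b with hb₁
  have l1 : a ≤ b₁ := Nat.le_findGreatest (by omega) (by rw [cd_self]; omega)
  have l2 : cd D a b₁ ≤ n := Nat.findGreatest_spec (P := fun m => cd D a m ≤ n) (m := a)
    (by omega) (by rw [cd_self]; omega)
  have l3 : ∀ m, b₁ < m → m ≤ b → n < cd D a m := fun m h1 h2 =>
    lt_of_not_ge (Nat.findGreatest_is_greatest (P := fun m => cd D a m ≤ n) h1 h2)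
  have l4 : b₁ < b := by
    have : b₁ ≤ b := Nat.findGreatest_le b
    rcases this.lt_or_eq with h | h
    · exact h
    · rw [h] at l2; omega
  have l5 : cd D a b₁ = n := by
    have h1 := l3 (b₁ + 1) (by omega) (by omega)
    have h2 := cd_succ D b₁
    have h3 := cd_tri D a b₁ (b₁ + 1)
    omega
  set s : ℕ → ℕ := fun i => sInf {v | ∃ i', i ≤ i' ∧ i' ≤ b₁ ∧ v = cd D a i'} with hs
  have s1 : ∀ i i', i ≤ i' → i' ≤ b₁ → s i ≤ cd D a i' := fun i i' h1 h2 =>
    Nat.sInf_le ⟨i', h1, h2, rfl⟩
  have s2 : ∀ i, i ≤ b₁ → ∃ i', i ≤ i' ∧ i' ≤ b₁ ∧ s i = cd D a i' := fun i hi =>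
    Nat.sInf_mem (s := {v | ∃ i', i ≤ i' ∧ i' ≤ b₁ ∧ v = cd D a i'}) ⟨_, i, le_rfl, hi, rfl⟩
  have s3 : ∀ i, i ≤ a → s i = 0 := fun i hi => by
    have := s1 i a hi l1
    rw [cd_self] at this
    omega
  have s4 : s b₁ = n := by
    obtain ⟨i', h1, h2, h3⟩ := s2 b₁ le_rfl
    rw [h3, le_antisymm h2 h1, l5]
  have s5 : ∀ i j, i ≤ j → j ≤ b₁ → s i ≤ s j := fun i j h1 h2 => by
    obtain ⟨i', k1, k2, k3⟩ := s2 j h2
    rw [k3]
    exact s1 i i' (by omega) k2
  have s6 : ∀ i j, a ≤ i → i ≤ j → j ≤ b₁ → s j ≤ s i + cd D i j := fun i j h0 h1 h2 => by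
    obtain ⟨i', k1, k2, k3⟩ := s2 i (by omega)
    by_cases h : j ≤ i'
    · have := s1 j i' h k2
      omega
    · have e1 := s1 j j le_rfl h2
      have e2 := cd_kal1 D h0 k1 (show i' ≤ j by omega)
      omega
  clear_value s
  refine ⟨fun m => s (min m b₁), s3 _ (by omega), fun m hm => ?_, fun m => ?_, fun m => ?_,
    fun i j => ?_⟩ <;> beta_reduce
  · rw [min_eq_right (by omega), s4]
  · by_cases h : m < b₁
    · rw [min_eq_left (show m + 1 ≤ b₁ by omega), min_eq_left (show m ≤ b₁ by omega)]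
      have e1 := s5 m (m + 1) (by omega) (by omega)
      by_cases h' : a ≤ m
      · have e2 := s6 m (m + 1) h' (by omega) (by omega)
        have e3 := cd_succ D m
        omega
      · have e2 := s3 (m + 1) (by omega)
        omega
    · rw [min_eq_right (show b₁ ≤ m + 1 by omega), min_eq_right (show b₁ ≤ m by omega)]
      exact Or.inl rfl
  · rw [← s4]
    exact s5 _ _ (min_le_right _ _) le_rfl
  · by_cases hi : i ≤ a
    · right; left
      rw [s3 _ (by omega)]
      omega
    by_cases hi' : b₁ ≤ i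
    · right; right
      rw [min_eq_right hi', s4]
      omega
    rw [min_eq_left (show i ≤ b₁ by omega)]
    have t1 := s1 i i le_rfl (by omega)
    have t2 := cd_kal1 D (show a ≤ i by omega) (show i ≤ b₁ by omega) l4.le
    have t3 := hno i (by omega) (by omega)
    by_cases hj : j ≤ a
    · right
      have u1 := cd_kal1 D hj (show a ≤ i by omega) (show i ≤ b by omega)
      have u2 := cd_kal2 D hj (show a ≤ i by omega) (show i ≤ b by omega)
      have u3 := cd_tri D a j i
      have u4 := cd_tri D i j b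
      rw [cd_comm D a j] at u3
      rw [cd_comm D i j] at u4 ⊢
      omega
    by_cases hj' : j ≤ b₁
    · left
      rw [min_eq_left hj']
      rcases le_total i j with h | h
      · have u1 := s5 i j h hj'
        have u2 := s6 i j (by omega) h hj'
        omega
      · have u1 := s5 j i h (by omega)
        have u2 := s6 j i (by omega) h (by omega)
        rw [cd_comm D j i] at u2
        omega
    right
    by_cases hj'' : j ≤ b
    · obtain ⟨i', k1, k2, k3⟩ := s2 i (by omega)
      have u1 := cd_kal1 D (show a ≤ i by omega) k1 (show i' ≤ j by omega)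
      have u2 := l3 j (by omega) hj''
      omega
    · have u1 := cd_kal1 D (show a ≤ i by omega) (show i ≤ b by omega) (show b ≤ j by omega)
      have u2 := cd_kal2 D (show a ≤ i by omega) (show i ≤ b by omega) (show b ≤ j by omega)
      have u3 := cd_tri D a j i
      have u4 := cd_tri D i j b
      rw [cd_comm D j i] at u3
      rw [cd_comm D j b] at u4
      omega

end Pool.Agent.MP_c20a26_lc
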