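import Pool.Agent.MP_c20a26_lc.Tokens

set_option autoImplicit false

namespace Pool.Agent.MP_c20a26_lc

open Sum

variable {J C : Type}

def takeL : ℕ → TW J → TW J
  | _, [] => []
  | n, inr t :: W => inr t :: takeL n W
  | 0, inl _ :: _ => []
  | n + 1, inl s :: W => inl s :: takeL n W

def dropL : ℕ → TW J → TW J
  | _, [] => []
  | n, inr _ :: W => dropL n W
  | 0, inl s :: W => inl s :: W
  | n + 1, inl _ :: W => dropL n W

def takeS : ℕ → TW J → TW J
  | 0, _ => []
  | _ + 1, [] => []
  | n + 1, inr t :: W => inr t :: takeS (n + 1) W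
  | n + 1, inl s :: W => inl s :: takeS n W

def dropS : ℕ → TW J → TW J
  | 0, W => W
  | _ + 1, [] => []
  | n + 1, inr _ :: W => dropS (n + 1) W
  | n + 1, inl _ :: W => dropS n W

theorem takeL_dropL : ∀ (n : ℕ) (W : TW J), takeL n W ++ dropL n W = W
  | _, [] => by simp [takeL, dropL]
  | n, inr t :: W => by simp [takeL, dropL, takeL_dropL n W]
  | 0, inl _ :: _ => by simp [takeL, dropL]
  | n + 1, inl s :: W => by simp [takeL, dropL, takeL_dropL n W]

theorem takeS_dropS : ∀ (n : ℕ) (W : TW J), takeS n W ++ dropS n W = W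
  | 0, _ => by simp [takeS, dropS]
  | _ + 1, [] => by simp [takeS, dropS]
  | n + 1, inr t :: W => by simp [takeS, dropS, takeS_dropS (n + 1) W]
  | n + 1, inl s :: W => by simp [takeS, dropS, takeS_dropS n W]

section
variable [DecidableEq J] (j : J)

theorem pj_takeL : ∀ (n : ℕ) (W : TW J), pj j (takeL n W) = takeL n (pj j W)
  | _, [] => by simp [takeL]
  | n, inr t :: W => by
    simp only [takeL, pj_inr, pj_takeL n W]
    split_ifs <;> simp [takeL]
  | 0, inl _ :: _ => by simp [takeL]
  | n + 1, inl s :: W => by simp [takeL, pj_takeL n W]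

theorem pj_dropL : ∀ (n : ℕ) (W : TW J), pj j (dropL n W) = dropL n (pj j W)
  | _, [] => by simp [dropL]
  | n, inr t :: W => by
    simp only [dropL, pj_inr, pj_dropL n W]
    split_ifs <;> simp [dropL]
  | 0, inl _ :: _ => by simp [dropL]
  | n + 1, inl s :: W => by simp [dropL, pj_dropL n W]

theorem pj_takeS : ∀ (n : ℕ) (W : TW J), pj j (takeS n W) = takeS n (pj j W)
  | 0, _ => by simp [takeS]
  | _ + 1, [] => by simp [takeS]
  | n + 1, inr t :: W => by
    simp only [takeS, pj_inr, pj_takeS (n + 1) W]
    split_ifs <;> simp [takeS]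
  | n + 1, inl s :: W => by simp [takeS, pj_takeS n W]

theorem pj_dropS : ∀ (n : ℕ) (W : TW J), pj j (dropS n W) = dropS n (pj j W)
  | 0, _ => by simp [dropS]
  | _ + 1, [] => by simp [dropS]
  | n + 1, inr t :: W => by
    simp only [dropS, pj_inr, pj_dropS (n + 1) W]
    split_ifs <;> simp [dropS]
  | n + 1, inl s :: W => by simp [dropS, pj_dropS n W]

theorem pj_tail_dropL : ∀ W : TW J, pj j (dropL 0 W).tail = (dropL 0 (pj j W)).tail
  | [] => by simp [dropL]
  | inr t :: W => by
    simp only [dropL, pj_inr, pj_tail_dropL W]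
    split_ifs <;> simp [dropL]
  | inl _ :: _ => by simp [dropL]

end

/-- A token word is consistent with a colouring of the positions. -/
inductive Cons (δ : C → J → C → Prop) (f : ℕ → C) : C → TW J → ℕ → C → Prop
  | nil (c : C) (p : ℕ) : Cons δ f c [] p c
  | tok {c c' c'' : C} {t : J} {W : TW J} {p : ℕ} : δ c t c' → Cons δ f c' W p c'' →
      Cons δ f c (inr t :: W) p c''
  | sym {c'' : C} {a : ℕ} {W : TW J} {p : ℕ} : Cons δ f (f p) W (p + 1) c'' →
      Cons δ f (f p) (inl a :: W) p c''

variable {δ : C → J → C → Prop}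

theorem Cons.walk {f : ℕ → C} {c c' : C} {W : TW J} {p : ℕ} (h : Cons δ f c W p c') :
    Walk δ c (tk W) c' := by
  induction h with
  | nil => exact Walk.nil _
  | tok h1 _ ih => exact Walk.cons h1 ih
  | sym _ ih => exact ih

theorem Cons.append {f : ℕ → C} {c c' c'' : C} {W W' : TW J} {p : ℕ} (h : Cons δ f c W p c')
    (h' : Cons δ f c' W' (p + (er W).length) c'') : Cons δ f c (W ++ W') p c'' := by
  induction h with
  | nil => exact h'
  | tok h1 _ ih => exact Cons.tok h1 (ih h')
  | @sym c a W p _ ih =>
    refine Cons.sym (ih ?_)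
    simpa [Nat.add_assoc, Nat.add_comm 1] using h'

theorem Cons.shift {f g : ℕ → C} {c c' : C} {W : TW J} {p : ℕ} (h : Cons δ f c W p c') :
    ∀ q, (∀ i < (er W).length, f (p + i) = g (q + i)) → Cons δ g c W q c' := by
  induction h with
  | nil => intro q _; exact Cons.nil _ _
  | tok h1 _ ih => intro q hq; exact Cons.tok h1 (ih q hq)
  | @sym c a W p _ ih =>
    intro q hq
    have e : f p = g q := hq 0 (by simp)
    rw [e] at ih ⊢
    refine Cons.sym (ih (q + 1) fun i hi => ?_)
    have := hq (i + 1) (by simpa using hi)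
    simpa [Nat.add_assoc, Nat.add_comm 1] using this

theorem Cons.of_walk {f : ℕ → C} {c c' : C} {T : List J} (h : Walk δ c T c') (p : ℕ) :
    Cons δ f c (tw T) p c' := by
  induction h with
  | nil => exact Cons.nil _ _
  | cons h1 _ ih => exact Cons.tok h1 ih

theorem Cons.splitL {f : ℕ → C} {c c' : C} {W : TW J} {p : ℕ} (h : Cons δ f c W p c') :
    ∀ a b : List ℕ, er W = a ++ b → b ≠ [] →
      Cons δ f c (takeL a.length W) p (f (p + a.length)) ∧
      Cons δ f (f (p + a.length)) (dropL a.length W) (p + a.length) c' ∧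
      er (takeL a.length W) = a ∧ er (dropL a.length W) = b := by
  induction h with
  | nil => intro a b h hb; simp [hb] at h
  | tok h1 _ ih =>
    intro a b h hb
    obtain ⟨k1, k2, k3, k4⟩ := ih a b h hb
    simp only [takeL, dropL]
    exact ⟨Cons.tok h1 k1, k2, k3, k4⟩
  | @sym c s W p h0 ih =>
    intro a b h hb
    cases a with
    | nil => exact ⟨Cons.nil _ _, Cons.sym h0, rfl, h⟩
    | cons s' a =>
      simp only [er_inl, List.cons_append, List.cons.injEq] at h
      obtain ⟨k1, k2, k3, k4⟩ := ih a b h.2 hb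
      simp only [List.length_cons, takeL, dropL]
      rw [show p + (a.length + 1) = p + 1 + a.length by omega]
      exact ⟨Cons.sym k1, k2, by simp [k3, h.1], k4⟩

theorem Cons.splitS {f : ℕ → C} {c c' : C} {W : TW J} {p : ℕ} (h : Cons δ f c W p c') :
    ∀ (a b : List ℕ) (n : ℕ), er W = a ++ b → a.length = n + 1 →
      Cons δ f c (takeS (n + 1) W) p (f (p + n)) ∧
      Cons δ f (f (p + n)) (dropS (n + 1) W) (p + n + 1) c' ∧
      er (takeS (n + 1) W) = a ∧ er (dropS (n + 1) W) = b := by
  induction h with
  | nil =>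
    intro a b n h ha
    have : a = [] := (List.append_eq_nil_iff.1 h.symm).1
    simp [this] at ha
  | tok h1 _ ih =>
    intro a b n h ha
    obtain ⟨k1, k2, k3, k4⟩ := ih a b n h ha
    simp only [takeS, dropS]
    exact ⟨Cons.tok h1 k1, k2, k3, k4⟩
  | @sym c s W p h0 ih =>
    intro a b n h ha
    cases a with
    | nil => simp at ha
    | cons s' a =>
      simp only [er_inl, List.cons_append, List.cons.injEq] at h
      cases n with
      | zero =>
        have : a = [] := List.length_eq_zero_iff.1 (by simpa using ha)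
        subst this
        simp only [takeS, dropS]
        exact ⟨Cons.sym (Cons.nil _ _), h0, by simp [h.1], by simpa using h.2⟩
      | succ n =>
        obtain ⟨k1, k2, k3, k4⟩ := ih a b n h.2 (by simpa using ha)
        rw [takeS, dropS, show p + (n + 1) = p + 1 + n by omega]
        exact ⟨Cons.sym k1, k2, by simp [k3, h.1], k4⟩

section Canon
variable (wk : C → C → List J) (o : C)

def wrap (κ : C) (f : ℕ → C) : List ℕ → ℕ → TW J
  | [], _ => []
  | s :: r, p => tw (wk κ (f p)) ++ inl s :: (tw (wk (f p) κ) ++ wrap κ f r (p + 1))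

/-- The canonical token run of a coloured derivation. -/
noncomputable def canon (S : ℕ) (κ : ℕ → C) : List St → (ℕ → C) → TW J × List (Lab J)
  | [], f => (wrap wk o f [S] 0, lab [] [inl S] (wrap wk o f [S] 0))
  | s :: D, f =>
    (takeL s.x.length (canon S κ D (pull s (κ D.length) f)).1 ++
        wrap wk (κ D.length) f s.r s.x.length ++
        dropS s.l.length (dropL s.x.length (canon S κ D (pull s (κ D.length) f)).1),
      (canon S κ D (pull s (κ D.length) f)).2 ++
        lab (tk (takeL s.x.length (canon S κ D (pull s (κ D.length) f)).1))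
          (takeS s.l.length (dropL s.x.length (canon S κ D (pull s (κ D.length) f)).1))
          (wrap wk (κ D.length) f s.r s.x.length))

def tokw (f : ℕ → C) : C → ℕ → List ℕ → TW J
  | c, _, [] => tw (wk c o)
  | c, p, s :: z => tw (wk c (f p)) ++ inl s :: tokw f (f p) (p + 1) z

noncomputable def ctr (f : ℕ → C) : List J → C → ℕ → List ℕ → TW J → List (Lab J)
  | T, c, _, [], W => lab T W (tw (wk c o))
  | T, c, p, _ :: z, W => lab T (takeL 0 W) (tw (wk c (f p))) ++
      ctr f (T ++ wk c (f p)) (f p) (p + 1) z (dropL 0 W).tail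

/-- The full canonical trace. -/
noncomputable def ftr (S : ℕ) (κ : ℕ → C) (D : List St) (f : ℕ → C) (w : List ℕ) : List (Lab J) :=
  (canon wk o S κ D f).2 ++ ctr wk o f [] o 0 w (canon wk o S κ D f).1

theorem er_wrap (κ : C) (f : ℕ → C) : ∀ (r : List ℕ) (p : ℕ), er (wrap wk κ f r p) = r
  | [], _ => rfl
  | s :: r, p => by simp [wrap, er_wrap κ f r]

variable {wk} (hwk : ∀ c c', Walk δ c (wk c c') c')
include hwk

theorem cons_wrap (κ : C) (f : ℕ → C) : ∀ (r : List ℕ) (p : ℕ), Cons δ f κ (wrap wk κ f r p) p κ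
  | [], _ => Cons.nil _ _
  | s :: r, p => by
    refine (Cons.of_walk (hwk _ _) p).append ?_
    simp only [er_tw, List.length_nil, Nat.add_zero]
    refine Cons.sym ((Cons.of_walk (hwk _ _) _).append ?_)
    simpa using cons_wrap κ f r (p + 1)

omit hwk in
theorem labOK_lab {T : List J} {l r : TW J} {c c' : C} (h1 : Walk δ o T c)
    (h2 : Walk δ c (tk l) c') (h3 : Walk δ c (tk r) c') : ∀ e ∈ lab T l r, LabOK δ o e := by
  intro e he
  by_cases hs : tk l = [] ∧ tk r = []
  · rw [lab_silent _ hs.1 hs.2] at he
    simp at he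
  · rw [lab_event _ hs, List.mem_singleton] at he
    subst he
    exact ⟨c, c', h1, h2, h3⟩

theorem canon_spec {G : Grammar} {R : List ℕ → List ℕ → Prop} (hS : R [G.S] [G.S])
    (hP : ∀ l r, (l, r) ∈ G.P → R l r) (κ : ℕ → C) : ∀ (D : List St) (w : List ℕ) (f : ℕ → C),
    Valid G D w → er (canon wk o G.S κ D f).1 = w ∧ Cons δ f o (canon wk o G.S κ D f).1 0 o ∧
      Run R [inl G.S] (canon wk o G.S κ D f).2 (canon wk o G.S κ D f).1 ∧
      ∀ e ∈ (canon wk o G.S κ D f).2, LabOK δ o e
  | [], w, f, h => by
    have h' : w = [G.S] := h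
    subst h'
    refine ⟨er_wrap _ _ _ _ _, cons_wrap hwk _ _ _ _, ?_, ?_⟩
    · have := Run.single (R := R) (x := []) (y := []) (l := [inl G.S])
        (r := wrap wk o f [G.S] 0) (by rw [er_wrap]; exact hS)
      simpa [canon] using this
    · exact labOK_lab o (Walk.nil _) (Walk.nil _) (cons_wrap hwk _ _ _ _).walk
  | s :: D, w, f, h => by
    obtain ⟨rfl, hp, hD⟩ := h
    obtain ⟨k1, k2, k3, k4⟩ := canon_spec hS hP κ D _ (pull s (κ D.length) f) hD
    have hl : 0 < s.l.length := lhs_ne hp
    obtain ⟨n, hn⟩ : ∃ n, s.l.length = n + 1 := ⟨s.l.length - 1, by omega⟩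
    simp only [canon]
    set Z := canon wk o G.S κ D (pull s (κ D.length) f)
    obtain ⟨a1, a2, a3, a4⟩ := k2.splitL s.x (s.l ++ s.y) (by rw [k1]; simp) (by
      intro e; have := congrArg List.length e; simp only [List.length_append, List.length_nil] at this
      omega)
    obtain ⟨b1, b2, b3, b4⟩ := a2.splitS s.l s.y n a4 hn
    have e1 : pull s (κ D.length) f (0 + s.x.length) = κ D.length := by
      unfold pull; rw [if_neg (by omega), if_pos (by omega)]
    have e2 : pull s (κ D.length) f (0 + s.x.length + n) = κ D.length := by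
      unfold pull; rw [if_neg (by omega), if_pos (by omega)]
    rw [e1] at a1 b1
    rw [e2] at b1 b2
    rw [← hn] at b1 b3 b4
    rw [Nat.add_assoc _ n 1, ← hn] at b2
    refine ⟨by simp [a3, b4, er_wrap], ?_, ?_, ?_⟩
    · rw [List.append_assoc]
      refine (a1.shift 0 ?_).append (Cons.append (c' := κ D.length) ?_ ?_)
      · intro i hi
        rw [a3] at hi
        unfold pull
        rw [if_pos (by omega)]
      · rw [a3, Nat.zero_add]
        exact cons_wrap hwk _ _ _ _
      · refine b2.shift _ fun i _ => ?_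
        unfold pull
        rw [if_neg (by omega), if_neg (by omega), a3, er_wrap]
        congr 1
        omega
    · refine Run.step ?_ (by rw [b3, er_wrap]; exact hP _ _ hp)
      rwa [List.append_assoc, takeS_dropS, takeL_dropL]
    · intro e he
      rcases List.mem_append.1 he with he | he
      · exact k4 e he
      · exact labOK_lab o a1.walk b1.walk (cons_wrap hwk _ _ _ _).walk e he

theorem ctr_spec {R : List ℕ → List ℕ → Prop} (hR : R [] []) (f : ℕ → C) :
    ∀ (z : List ℕ) (pre W : TW J) (c : C) (p : ℕ), Cons δ f c W p o → er W = z →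
      Walk δ o (tk pre) c →
      Run R (pre ++ W) (ctr wk o f (tk pre) c p z W) (pre ++ tokw wk o f c p z) ∧
      ∀ e ∈ ctr wk o f (tk pre) c p z W, LabOK δ o e
  | [], pre, W, c, p, h, hz, hw => by
    simp only [ctr, tokw]
    refine ⟨?_, labOK_lab o hw h.walk (by simpa using hwk c o)⟩
    have := Run.single (R := R) (x := pre) (y := []) (l := W) (r := tw (wk c o))
      (by rw [hz, er_tw]; exact hR)
    simpa using this
  | s :: z, pre, W, c, p, h, hz, hw => by
    obtain ⟨a1, a2, a3, a4⟩ := h.splitL [] (s :: z) hz (by simp)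
    simp only [List.length_nil, Nat.add_zero] at a1 a2 a3 a4
    have hd : ∀ W : TW J, er (dropL 0 W) = s :: z → dropL 0 W = inl s :: (dropL 0 W).tail := by
      intro W
      induction W with
      | nil => intro h; simp [dropL] at h
      | cons t W ih =>
        cases t with
        | inl a => intro h; simp only [dropL, er_inl, List.cons.injEq] at h; simp [dropL, h.1]
        | inr t => intro h; exact ih h
    have e := hd W a4
    rw [e] at a2 a4
    have a5 : Cons δ f (f p) (dropL 0 W).tail (p + 1) o := by
      generalize (dropL 0 W).tail = W' at a2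
      generalize hc : f p = c0 at a2
      cases a2 with
      | sym h => exact h
    obtain ⟨k1, k2⟩ := ctr_spec hR f z (pre ++ tw (wk c (f p)) ++ [inl s]) (dropL 0 W).tail (f p)
      (p + 1) a5 (by simpa using a4) (by simpa using hw.append (hwk c (f p)))
    simp only [tk_append, tk_tw, tk_inl, tk_nil, List.append_nil] at k1 k2
    simp only [ctr, tokw]
    refine ⟨?_, ?_⟩
    · have := Run.single (R := R) (x := pre) (y := dropL 0 W) (l := takeL 0 W)
        (r := tw (wk c (f p))) (by rw [a3, er_tw]; exact hR)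
      rw [List.append_assoc, takeL_dropL, e] at this
      have := this.trans (by simpa using k1)
      simpa using this
    · intro e he
      rcases List.mem_append.1 he with he | he
      · exact labOK_lab o hw a1.walk (by simpa using hwk c (f p)) e he
      · exact k2 e he

theorem ftr_spec {G : Grammar} {R : List ℕ → List ℕ → Prop} (hS : R [G.S] [G.S]) (hR : R [] [])
    (hP : ∀ l r, (l, r) ∈ G.P → R l r) (κ : ℕ → C) {D : List St} {w : List ℕ} (f : ℕ → C)
    (h : Valid G D w) :
    Run R [inl G.S] (ftr wk o G.S κ D f w) (tokw wk o f o 0 w) ∧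
      ∀ e ∈ ftr wk o G.S κ D f w, LabOK δ o e := by
  obtain ⟨k1, k2, k3, k4⟩ := canon_spec o hwk hS hP κ D w f h
  obtain ⟨m1, m2⟩ := ctr_spec o hwk hR f w [] _ o 0 k2 k1 (Walk.nil _)
  refine ⟨k3.trans m1, fun e he => ?_⟩
  rcases List.mem_append.1 he with he | he
  · exact k4 e he
  · exact m2 e he

end Canon

/-- Token walk between Boolean colours. -/
def wkB (b b' : Bool) : List Unit := if b = b' then [] else [()]

section Proj
variable [DecidableEq J] {wk : C → C → List J} {o : C} {π : C → Bool} {j : J}
  (hπ : ∀ c c', pjT j (wk c c') = wkB (π c) (π c')) (ho : π o = false)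
include hπ

theorem pj_wrap (κ : C) (f : ℕ → C) : ∀ (r : List ℕ) (p : ℕ),
    pj j (wrap wk κ f r p) = wrap wkB (π κ) (fun q => π (f q)) r p
  | [], _ => rfl
  | s :: r, p => by simp [wrap, pj_tw, hπ, pj_wrap κ f r]

include ho

theorem pj_canon (S : ℕ) (κ : ℕ → C) : ∀ (D : List St) (f : ℕ → C),
    pj j (canon wk o S κ D f).1 = (canon wkB false S (fun q => π (κ q)) D (fun q => π (f q))).1 ∧
    pjL j (canon wk o S κ D f).2 = (canon wkB false S (fun q => π (κ q)) D (fun q => π (f q))).2
  | [], f => by
    simp only [canon, pjL_lab, pj_wrap hπ, ho]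
    simp
  | s :: D, f => by
    obtain ⟨h1, h2⟩ := pj_canon S κ D (pull s (κ D.length) f)
    simp only [canon, pj_append, pjL_append, pjL_lab, pj_wrap hπ, pj_takeL, pj_dropL, pj_takeS,
      pj_dropS, ← tk_pj, h1, h2, pull_map π, and_self]

theorem pj_ctr (f : ℕ → C) : ∀ (z : List ℕ) (T : List J) (c : C) (p : ℕ) (W : TW J),
    pjL j (ctr wk o f T c p z W) =
      ctr wkB false (fun q => π (f q)) (pjT j T) (π c) p z (pj j W)
  | [], T, c, p, W => by simp [ctr, pjL_lab, pj_tw, hπ, ho]
  | s :: z, T, c, p, W => by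
    simp only [ctr, pjL_append, pjL_lab, pj_tw, hπ, pj_ctr f z, pj_takeL, pj_tail_dropL,
      pjT_append]

theorem pj_ftr (S : ℕ) (κ : ℕ → C) (D : List St) (f : ℕ → C) (w : List ℕ) :
    pjL j (ftr wk o S κ D f w) = ftr wkB false S (fun q => π (κ q)) D (fun q => π (f q)) w := by
  obtain ⟨h1, h2⟩ := pj_canon hπ ho S κ D f
  simp only [ftr, pjL_append, pj_ctr hπ ho, h1, h2, ho, pjT_nil]

end Proj

section Shape
variable {wk : C → C → List J} {o : C} (h0 : ∀ c, wk c c = []) {f : ℕ → C}
include h0

theorem tokw_same (d : C) (z' : List ℕ) : ∀ (z : List ℕ) (p : ℕ),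
    (∀ i < z.length, f (p + i) = d) →
    tokw wk o f d p (z ++ z') = sy z ++ tokw wk o f d (p + z.length) z'
  | [], p, _ => rfl
  | s :: z, p, h => by
    have e : f p = d := h 0 (by simp)
    have ih := tokw_same d z' z (p + 1) fun i hi => by
      have := h (i + 1) (by simpa using hi)
      rwa [show p + 1 + i = p + (i + 1) by omega]
    simp only [List.cons_append, tokw, e, h0, ih]
    simp [Nat.add_assoc, Nat.add_comm 1]

theorem tokw_block (c d : C) (z z' : List ℕ) (p : ℕ) (hz : z ≠ [])
    (h : ∀ i < z.length, f (p + i) = d) :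
    tokw wk o f c p (z ++ z') = tw (wk c d) ++ (sy z ++ tokw wk o f d (p + z.length) z') := by
  cases z with
  | nil => exact absurd rfl hz
  | cons s z =>
    have e : f p = d := h 0 (by simp)
    have ih := tokw_same (o := o) h0 d z' z (p + 1) fun i hi => by
      have := h (i + 1) (by simpa using hi)
      rwa [show p + 1 + i = p + (i + 1) by omega]
    simp only [List.cons_append, tokw, e, ih]
    simp [Nat.add_assoc, Nat.add_comm 1]

theorem tokw_last (c : C) (z : List ℕ) (p : ℕ) (h : ∀ i < z.length, f (p + i) = o) :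
    tokw wk o f c p z = tw (wk c o) ++ sy z := by
  by_cases hz : z = []
  · subst hz
    simp [tokw]
  · have := tokw_block (o := o) h0 c o z [] p hz h
    simpa [tokw, h0] using this

end Shape

section Bounds

theorem length_lab (T : List J) (l r : TW J) :
    (lab T l r).length ≤ 1 ∧ (lab T l r).length ≤ (tk l).length + (tk r).length := by
  by_cases hs : tk l = [] ∧ tk r = []
  · rw [lab_silent _ hs.1 hs.2]
    simp
  · rw [lab_event _ hs]
    refine ⟨le_rfl, ?_⟩
    by_contra hh
    apply hs
    simp only [List.length_singleton] at hh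
    exact ⟨List.length_eq_zero_iff.1 (by omega), List.length_eq_zero_iff.1 (by omega)⟩

theorem mem_lab {T : List J} {l r : TW J} {e : Lab J} (h : e ∈ lab T l r) : e = (T, l, r) := by
  by_cases hs : tk l = [] ∧ tk r = []
  · rw [lab_silent _ hs.1 hs.2] at h
    simp at h
  · rwa [lab_event _ hs, List.mem_singleton] at h

/-- Small labels. -/
def Small (n : ℕ) (e : Lab J) : Prop :=
  e.1.length ≤ n ∧ (tk e.2.1).length ≤ n ∧ (tk e.2.2).length ≤ n

theorem Small.mono {n m : ℕ} {e : Lab J} (h : Small n e) (hn : n ≤ m) : Small m e :=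
  ⟨h.1.trans hn, h.2.1.trans hn, h.2.2.trans hn⟩

theorem tk_wrapB (κ : Bool) (f : ℕ → Bool) : ∀ (r : List ℕ) (p : ℕ),
    (tk (wrap wkB κ f r p)).length =
      2 * ∑ i ∈ Finset.range r.length, if f (p + i) = κ then 0 else 1
  | [], _ => rfl
  | s :: r, p => by
    rw [List.length_cons, Finset.sum_range_succ']
    simp only [wrap, tk_append, tk_tw, tk_inl, List.length_append, tk_wrapB κ f r (p + 1),
      Nat.add_zero, Nat.add_assoc, Nat.add_comm 1]
    cases κ <;> cases f p <;> simp [wkB] <;> omega

theorem canon_bound (S : ℕ) (χ : ℕ → Bool) : ∀ (D : List St) (f : ℕ → Bool),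
    (tk (canon wkB false S χ D f).1).length + (canon wkB false S χ D f).2.length ≤
      3 * cost D χ f ∧ ∀ e ∈ (canon wkB false S χ D f).2, Small (3 * cost D χ f) e
  | [], f => by
    have h1 := tk_wrapB false f [S] 0
    have h2 := length_lab [] [inl S] (wrap wkB false f [S] 0)
    simp only [List.length_singleton, Finset.range_one, Finset.sum_singleton, Nat.add_zero,
      tk_inl, tk_nil, List.length_nil] at h1 h2
    simp only [canon, cost]
    refine ⟨by omega, fun e he => ?_⟩
    rw [mem_lab he]
    exact ⟨by simp, by simp, by simp only; omega⟩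
  | s :: D, f => by
    obtain ⟨k1, k2⟩ := canon_bound S χ D (pull s (χ D.length) f)
    have h1 := tk_wrapB (χ D.length) f s.r s.x.length
    simp only [canon, cost]
    set Z := canon wkB false S χ D (pull s (χ D.length) f)
    have h2 := length_lab (tk (takeL s.x.length Z.1)) (takeS s.l.length (dropL s.x.length Z.1))
      (wrap wkB (χ D.length) f s.r s.x.length)
    have h3 : (tk Z.1).length = (tk (takeL s.x.length Z.1)).length +
        ((tk (takeS s.l.length (dropL s.x.length Z.1))).length +
          (tk (dropS s.l.length (dropL s.x.length Z.1))).length) := by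
      rw [← List.length_append, ← List.length_append, ← tk_append, ← tk_append, takeS_dropS,
        takeL_dropL]
    refine ⟨by simp only [tk_append, List.length_append]; omega, fun e he => ?_⟩
    rcases List.mem_append.1 he with he | he
    · exact (k2 e he).mono (by omega)
    · rw [mem_lab he]
      exact ⟨by simp only; omega, by simp only; omega, by simp only; omega⟩

theorem ctr_bound (wk : C → C → List J) (o : C) (f : ℕ → C) :
    ∀ (z : List ℕ) (T : List J) (c : C) (p : ℕ) (W : TW J),
    (ctr wk o f T c p z W).length ≤ (tk W).length + (tk (tokw wk o f c p z)).length ∧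
    ∀ e ∈ ctr wk o f T c p z W,
      Small (T.length + (tk W).length + (tk (tokw wk o f c p z)).length) e
  | [], T, c, p, W => by
    simp only [ctr, tokw]
    refine ⟨(length_lab _ _ _).2, fun e he => ?_⟩
    rw [mem_lab he]
    exact ⟨by simp only; omega, by simp only; omega, by simp only; omega⟩
  | s :: z, T, c, p, W => by
    obtain ⟨k1, k2⟩ := ctr_bound wk o f z (T ++ wk c (f p)) (f p) (p + 1) (dropL 0 W).tail
    have h2 := (length_lab T (takeL 0 W) (tw (wk c (f p)))).2
    have h3 : (tk W).length = (tk (takeL 0 W)).length + (tk (dropL 0 W)).length := by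
      rw [← List.length_append, ← tk_append, takeL_dropL]
    have h4 : (tk (dropL 0 W).tail).length ≤ (tk (dropL 0 W)).length := by
      cases dropL 0 W with
      | nil => simp
      | cons t W' => cases t <;> simp
    simp only [ctr, tokw, tk_append, tk_tw, tk_inl, List.length_append] at k1 k2 h2 ⊢
    refine ⟨by omega, fun e he => ?_⟩
    rcases List.mem_append.1 he with he | he
    · rw [mem_lab he]
      exact ⟨by simp only; omega, by simp only; omega, by simp only [tk_tw]; omega⟩
    · exact (k2 e he).mono (by omega)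

theorem Run.lab_rule {R : List ℕ → List ℕ → Prop} {A B : TW J} {Λ : List (Lab J)}
    (h : Run R A Λ B) : ∀ e ∈ Λ, R (er e.2.1) (er e.2.2) := by
  induction h with
  | refl => simp
  | step _ hr ih =>
    intro e he
    rcases List.mem_append.1 he with he | he
    · exact ih e he
    · rw [mem_lab he]
      exact hr

end Bounds

end Pool.Agent.MP_c20a26_lc
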