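import Pool.Agent.MP_c20a26_lc.Defs

set_option autoImplicit false

namespace Pool.Agent.MP_c20a26_lc

/-- A derivation step: `x l y` is rewritten to `x r y`. -/
structure St where
  x : List ℕ
  l : List ℕ
  r : List ℕ
  y : List ℕ

/-- `D` (latest step first) is a derivation of `w` from the start symbol. -/
def Valid (G : Grammar) : List St → List ℕ → Prop
  | [], w => w = [G.S]
  | s :: D, w => w = s.x ++ s.r ++ s.y ∧ (s.l, s.r) ∈ G.P ∧ Valid G D (s.x ++ s.l ++ s.y)

theorem exists_valid {G : Grammar} {w : List ℕ} (h : Relation.ReflTransGen G.Step [G.S] w) :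
    ∃ D, Valid G D w := by
  induction h with
  | refl => exact ⟨[], rfl⟩
  | tail _ hs ih =>
    obtain ⟨D, hD⟩ := ih
    obtain ⟨x, y, p, hp, rfl, rfl⟩ := hs
    exact ⟨⟨x, p.1, p.2, y⟩ :: D, rfl, hp, hD⟩

theorem lhs_ne {G : Grammar} {p : List ℕ × List ℕ} (hp : p ∈ G.P) : 0 < p.1.length := by
  obtain ⟨a, ha, -⟩ := G.lhs_nt p hp
  exact List.length_pos_of_mem ha

theorem valid_mem {G : Grammar} : ∀ {D : List St} {w : List ℕ}, Valid G D w → ∀ a ∈ w, a ∈ G.V
  | [], w, h => by
    intro a ha
    have h' : w = [G.S] := h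
    rw [h'] at ha
    rw [List.mem_singleton.1 ha]
    exact G.S_mem
  | s :: D, w, h => by
    obtain ⟨rfl, hp, hD⟩ := h
    have ih := valid_mem hD
    intro a ha
    simp only [List.mem_append] at ha ih
    rcases ha with (ha | ha) | ha
    · exact ih a (Or.inl (Or.inl ha))
    · exact G.rhs_mem _ hp a ha
    · exact ih a (Or.inr ha)

/-- Pull a colouring of positions back through a step performed by a node of colour `κ`. -/
def pull {C : Type} (s : St) (κ : C) (f : ℕ → C) : ℕ → C := fun p =>
  if p < s.x.length then f p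
  else if p < s.x.length + s.l.length then κ else f (p + s.r.length - s.l.length)

/-- Number of cut edges. -/
def cost : List St → (ℕ → Bool) → (ℕ → Bool) → ℕ
  | [], _, f => if f 0 = false then 0 else 1
  | s :: D, χ, f =>
    (∑ j ∈ Finset.range s.r.length, if f (s.x.length + j) = χ D.length then 0 else 1) +
      cost D χ (pull s (χ D.length) f)

theorem pull_op {A B C : Type} (op : A → B → C) (s : St) (κ : A) (κ' : B) (f : ℕ → A)
    (g : ℕ → B) :
    pull s (op κ κ') (fun p => op (f p) (g p)) = fun p => op (pull s κ f p) (pull s κ' g p) := by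
  funext p
  unfold pull
  split_ifs <;> rfl

theorem pull_map {A C : Type} (op : A → C) (s : St) (κ : A) (f : ℕ → A) :
    pull s (op κ) (fun p => op (f p)) = fun p => op (pull s κ f p) := by
  funext p
  unfold pull
  split_ifs <;> rfl

theorem cost_op (o₁ o₂ : Bool → Bool → Bool) (h₁ : o₁ false false = false)
    (h₂ : o₂ false false = false)
    (h : ∀ a b c d : Bool, (if o₁ a b = o₁ c d then 0 else 1) + (if o₂ a b = o₂ c d then 0 else 1)
      ≤ (if a = c then 0 else 1) + (if b = d then 0 else 1)) :
    ∀ (D : List St) (χ χ' f f' : ℕ → Bool),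
      cost D (fun p => o₁ (χ p) (χ' p)) (fun p => o₁ (f p) (f' p)) +
        cost D (fun p => o₂ (χ p) (χ' p)) (fun p => o₂ (f p) (f' p)) ≤
      cost D χ f + cost D χ' f'
  | [], χ, χ', f, f' => by
    have := h (f 0) (f' 0) false false
    rw [h₁, h₂] at this
    simpa only [cost] using this
  | s :: D, χ, χ', f, f' => by
    simp only [cost]
    rw [pull_op o₁, pull_op o₂]
    have ih := cost_op o₁ o₂ h₁ h₂ h D χ χ' (pull s (χ D.length) f) (pull s (χ' D.length) f')
    have hs : (∑ j ∈ Finset.range s.r.length,
        if o₁ (f (s.x.length + j)) (f' (s.x.length + j)) = o₁ (χ D.length) (χ' D.length)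
          then 0 else 1) +
        (∑ j ∈ Finset.range s.r.length,
        if o₂ (f (s.x.length + j)) (f' (s.x.length + j)) = o₂ (χ D.length) (χ' D.length)
          then 0 else 1) ≤
        (∑ j ∈ Finset.range s.r.length, if f (s.x.length + j) = χ D.length then 0 else 1) +
        (∑ j ∈ Finset.range s.r.length, if f' (s.x.length + j) = χ' D.length then 0 else 1) := by
      rw [← Finset.sum_add_distrib, ← Finset.sum_add_distrib]
      exact Finset.sum_le_sum fun j _ => h _ _ _ _
    omega

theorem cost_false : ∀ D : List St, cost D (fun _ => false) (fun _ => false) = 0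
  | [] => by simp [cost]
  | s :: D => by
    have : pull s false (fun _ => false) = fun _ => false := by
      funext p; unfold pull; split_ifs <;> rfl
    simp [cost, this, cost_false D]

theorem cost_true : ∀ D : List St, cost D (fun _ => true) (fun _ => true) = 1
  | [] => by simp [cost]
  | s :: D => by
    have : pull s true (fun _ => true) = fun _ => true := by
      funext p; unfold pull; split_ifs <;> rfl
    simp [cost, this, cost_true D]

theorem cost_congr {G : Grammar} : ∀ {D : List St} {w : List ℕ}, Valid G D w →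
    ∀ (χ f f' : ℕ → Bool), (∀ p < w.length, f p = f' p) → cost D χ f = cost D χ f'
  | [], w, h, χ, f, f', hf => by
    have h' : w = [G.S] := h
    simp only [cost]
    rw [hf 0 (by rw [h']; simp)]
  | s :: D, w, h, χ, f, f', hf => by
    obtain ⟨rfl, hp, hD⟩ := h
    simp only [List.length_append] at hf
    simp only [cost]
    rw [cost_congr hD χ (pull s (χ D.length) f) (pull s (χ D.length) f')]
    · congr 1
      refine Finset.sum_congr rfl fun j hj => ?_
      rw [hf _ (by have := Finset.mem_range.1 hj; omega)]
    · intro p hp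
      simp only [List.length_append] at hp
      unfold pull
      split_ifs with h1 h2
      · exact hf _ (by omega)
      · rfl
      · exact hf _ (by omega)

theorem cost_congr_chi : ∀ (D : List St) (χ χ' f : ℕ → Bool), (∀ t < D.length, χ t = χ' t) →
    cost D χ f = cost D χ' f
  | [], _, _, _, _ => rfl
  | s :: D, χ, χ', f, h => by
    simp only [cost]
    rw [h D.length (by simp), cost_congr_chi D χ χ' _ fun t ht => h t (by simp; omega)]

theorem cost_one : ∀ (D : List St) (χ f f' : ℕ → Bool) (g : ℕ), (∀ p, p ≠ g → f p = f' p) →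
    cost D χ f ≤ cost D χ f' + 1
  | [], χ, f, f', g, _ => by
    simp only [cost]
    split_ifs <;> omega
  | s :: D, χ, f, f', g, h => by
    simp only [cost]
    by_cases hg : s.x.length ≤ g ∧ g < s.x.length + s.r.length
    · have e : pull s (χ D.length) f = pull s (χ D.length) f' := by
        funext p
        unfold pull
        split_ifs with h1 h2
        · exact h _ (by omega)
        · rfl
        · exact h _ (by omega)
      rw [e]
      have : (∑ j ∈ Finset.range s.r.length, if f (s.x.length + j) = χ D.length then 0 else 1) ≤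
          ∑ j ∈ Finset.range s.r.length, ((if f' (s.x.length + j) = χ D.length then 0 else 1) +
            if j = g - s.x.length then 1 else 0) := by
        refine Finset.sum_le_sum fun j _ => ?_
        by_cases hj : j = g - s.x.length
        · rw [if_pos hj]; split_ifs <;> omega
        · rw [h _ (by omega)]; omega
      rw [Finset.sum_add_distrib, Finset.sum_ite_eq'] at this
      split_ifs at this <;> omega
    · have e : (∑ j ∈ Finset.range s.r.length, if f (s.x.length + j) = χ D.length then 0 else 1) =
          ∑ j ∈ Finset.range s.r.length, if f' (s.x.length + j) = χ D.length then 0 else 1 := by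
        refine Finset.sum_congr rfl fun j hj => ?_
        rw [h _ (by have := Finset.mem_range.1 hj; omega)]
      rw [e]
      have := cost_one D χ (pull s (χ D.length) f) (pull s (χ D.length) f')
        (if g < s.x.length then g else g - s.r.length + s.l.length) (by
          intro p hp
          unfold pull
          split_ifs at hp with h0
          · split_ifs with h1 h2
            · exact h _ hp
            · rfl
            · exact h _ (by omega)
          · split_ifs with h1 h2
            · exact h _ (by omega)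
            · rfl
            · exact h _ (by omega))
      omega

/-- Indicator of the positions between the gaps `a` and `b`. -/
def iv (a b : ℕ) : ℕ → Bool := fun p => xor (decide (a ≤ p)) (decide (b ≤ p))

/-- Minimum cut. -/
noncomputable def mu (D : List St) (f : ℕ → Bool) : ℕ := sInf (Set.range fun χ => cost D χ f)

theorem mu_le (D : List St) (χ f : ℕ → Bool) : mu D f ≤ cost D χ f :=
  Nat.sInf_le ⟨χ, rfl⟩

theorem mu_ex (D : List St) (f : ℕ → Bool) : ∃ χ, cost D χ f = mu D f :=
  Nat.sInf_mem (s := Set.range fun χ => cost D χ f) ⟨_, fun _ => false, rfl⟩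

theorem mu_op (o₁ o₂ : Bool → Bool → Bool) (h₁ : o₁ false false = false)
    (h₂ : o₂ false false = false)
    (h : ∀ a b c d : Bool, (if o₁ a b = o₁ c d then 0 else 1) + (if o₂ a b = o₂ c d then 0 else 1)
      ≤ (if a = c then 0 else 1) + (if b = d then 0 else 1))
    (D : List St) (f f' : ℕ → Bool) :
    mu D (fun p => o₁ (f p) (f' p)) + mu D (fun p => o₂ (f p) (f' p)) ≤ mu D f + mu D f' := by
  obtain ⟨χ, hχ⟩ := mu_ex D f
  obtain ⟨χ', hχ'⟩ := mu_ex D f'
  have := cost_op o₁ o₂ h₁ h₂ h D χ χ' f f'
  have e1 := mu_le D (fun p => o₁ (χ p) (χ' p)) (fun p => o₁ (f p) (f' p))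
  have e2 := mu_le D (fun p => o₂ (χ p) (χ' p)) (fun p => o₂ (f p) (f' p))
  omega

/-- The cut metric on gaps. -/
noncomputable def cd (D : List St) (a b : ℕ) : ℕ := mu D (iv a b)

theorem cd_self (D : List St) (a : ℕ) : cd D a a = 0 := by
  have : iv a a = fun _ => false := by funext p; simp [iv]
  have h := mu_le D (fun _ => false) (fun _ => false)
  rw [cost_false] at h
  unfold cd
  rw [this]
  omega

theorem cd_comm (D : List St) (a b : ℕ) : cd D a b = cd D b a := by
  have : iv a b = iv b a := by funext p; simp [iv, Bool.xor_comm]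
  unfold cd
  rw [this]

theorem cd_tri (D : List St) (a b c : ℕ) : cd D a c ≤ cd D a b + cd D b c := by
  have := mu_op xor (fun _ _ => false) rfl rfl (by decide) D (iv a b) (iv b c)
  have e : (fun p => xor (iv a b p) (iv b c p)) = iv a c := by
    funext p
    simp only [iv]
    cases decide (a ≤ p) <;> cases decide (b ≤ p) <;> cases decide (c ≤ p) <;> rfl
  rw [e] at this
  unfold cd
  omega

theorem cd_kal1 (D : List St) {a b c d : ℕ} (h1 : a ≤ b) (h2 : b ≤ c) (h3 : c ≤ d) :
    cd D a d + cd D b c ≤ cd D a c + cd D b d := by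
  have := mu_op or and rfl rfl (by decide) D (iv a c) (iv b d)
  have e1 : (fun p => or (iv a c p) (iv b d p)) = iv a d := by
    funext p
    simp only [iv]
    by_cases a ≤ p <;> by_cases b ≤ p <;> by_cases c ≤ p <;> by_cases d ≤ p <;> simp [*] <;> omega
  have e2 : (fun p => and (iv a c p) (iv b d p)) = iv b c := by
    funext p
    simp only [iv]
    by_cases a ≤ p <;> by_cases b ≤ p <;> by_cases c ≤ p <;> by_cases d ≤ p <;> simp [*] <;> omega
  rw [e1, e2] at this
  exact this

theorem cd_kal2 (D : List St) {a b c d : ℕ} (h1 : a ≤ b) (h2 : b ≤ c) (h3 : c ≤ d) :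
    cd D a b + cd D c d ≤ cd D a c + cd D b d := by
  have := mu_op (fun u v => u && !v) (fun u v => v && !u) rfl rfl (by decide) D (iv a c) (iv b d)
  have e1 : (fun p => (iv a c p) && !(iv b d p)) = iv a b := by
    funext p
    simp only [iv]
    by_cases a ≤ p <;> by_cases b ≤ p <;> by_cases c ≤ p <;> by_cases d ≤ p <;> simp [*] <;> omega
  have e2 : (fun p => (iv b d p) && !(iv a c p)) = iv c d := by
    funext p
    simp only [iv]
    by_cases a ≤ p <;> by_cases b ≤ p <;> by_cases c ≤ p <;> by_cases d ≤ p <;> simp [*] <;> omega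
  rw [e1, e2] at this
  exact this

theorem cd_succ (D : List St) (a : ℕ) : cd D a (a + 1) ≤ 1 := by
  have h := cost_one D (fun _ => false) (iv a (a + 1)) (fun _ => false) a (by
    intro p hp
    simp only [iv]
    by_cases a ≤ p <;> by_cases a + 1 ≤ p <;> simp [*] <;> omega)
  rw [cost_false] at h
  exact (mu_le _ _ _).trans h

theorem cd_all {G : Grammar} {D : List St} {w : List ℕ} (h : Valid G D w) :
    cd D 0 w.length ≤ 1 := by
  have := cost_congr h (fun _ => true) (iv 0 w.length) (fun _ => true) (by
    intro p hp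
    have : ¬ w.length ≤ p := by omega
    simp [iv, this])
  rw [cost_true] at this
  exact (mu_le _ _ _).trans this.le

/-- The gap into which a surviving gap is carried by a step. -/
def sg (s : St) (g : ℕ) : ℕ := if g ≤ s.x.length then g else g + s.r.length - s.l.length

theorem cd_sg (s : St) (D : List St) {g g' : ℕ}
    (hg : g ≤ s.x.length ∨ s.x.length + s.l.length ≤ g)
    (hg' : g' ≤ s.x.length ∨ s.x.length + s.l.length ≤ g') (hl : 0 < s.l.length) :
    cd (s :: D) (sg s g) (sg s g') ≤ cd D g g' := by
  obtain ⟨χ, hχ⟩ := mu_ex D (iv g g')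
  set κ := iv g g' s.x.length with hκ
  have h := mu_le (s :: D) (Function.update χ D.length κ) (iv (sg s g) (sg s g'))
  simp only [cost, Function.update_self] at h
  have e1 : (∑ j ∈ Finset.range s.r.length,
      if iv (sg s g) (sg s g') (s.x.length + j) = κ then 0 else 1) = 0 := by
    refine Finset.sum_eq_zero fun j hj => ?_
    have hj' := Finset.mem_range.1 hj
    rw [if_pos]
    simp only [hκ, iv, sg]
    congr 1 <;> simp only [decide_eq_decide] <;> split_ifs <;> omega
  have e2 : pull s κ (iv (sg s g) (sg s g')) = iv g g' := by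
    funext p
    simp only [pull, hκ, iv, sg]
    split_ifs <;> congr 1 <;> simp only [decide_eq_decide] <;> omega
  rw [e1, e2, cost_congr_chi D _ χ _ (fun t ht => by
    rw [Function.update_of_ne (by omega)]), hχ] at h
  simpa [cd] using h

/-- Extension of a Lipschitz function. -/
theorem mcshane (c : ℕ → ℕ → ℕ) (c0 : ∀ a, c a a = 0) (ct : ∀ a b d, c a d ≤ c a b + c b d)
    (A : Set ℕ) (hA : A.Nonempty) (K : ℕ) (f : ℕ → ℕ)
    (hf : ∀ a ∈ A, ∀ b ∈ A, f a ≤ f b + K * c a b) :
    ∃ F : ℕ → ℕ, (∀ a ∈ A, F a = f a) ∧ ∀ a b, F a ≤ F b + K * c a b := by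
  refine ⟨fun g => sInf {v | ∃ a ∈ A, v = f a + K * c g a}, fun a ha => ?_, fun a b => ?_⟩
  · apply le_antisymm
    · exact Nat.sInf_le ⟨a, ha, by rw [c0]; simp⟩
    · obtain ⟨b, hb, e⟩ := Nat.sInf_mem (s := {v | ∃ a' ∈ A, v = f a' + K * c a a'})
        ⟨_, a, ha, rfl⟩
      exact (hf a ha b hb).trans e.ge
  · obtain ⟨a0, ha0⟩ := hA
    obtain ⟨d, hd, e⟩ := Nat.sInf_mem (s := {v | ∃ a' ∈ A, v = f a' + K * c b a'})
      ⟨_, a0, ha0, rfl⟩
    have h1 : sInf {v | ∃ a' ∈ A, v = f a' + K * c a a'} ≤ f d + K * c a d :=
      Nat.sInf_le ⟨d, hd, rfl⟩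
    have h2 := Nat.mul_le_mul_left K (ct a b d)
    rw [Nat.mul_add] at h2
    simp only
    omega

end Pool.Agent.MP_c20a26_lc
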