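import Mathlib

set_option autoImplicit false

namespace Pool.Agent.MP_c20a26_lc

/-- A grammar `(V, T, P, S)`; symbols are natural numbers, `T` is the terminal alphabet. -/
structure Grammar where
  V : Finset ℕ
  T : Finset ℕ
  P : Finset (List ℕ × List ℕ)
  S : ℕ
  T_sub : T ⊆ V
  S_mem : S ∈ V
  S_not : S ∉ T
  lhs_mem : ∀ p ∈ P, ∀ a ∈ p.1, a ∈ V
  rhs_mem : ∀ p ∈ P, ∀ a ∈ p.2, a ∈ V
  lhs_nt : ∀ p ∈ P, ∃ a ∈ p.1, a ∉ T

/-- One derivation step. -/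
def Grammar.Step (G : Grammar) (u v : List ℕ) : Prop :=
  ∃ x y : List ℕ, ∃ p ∈ G.P, u = x ++ p.1 ++ y ∧ v = x ++ p.2 ++ y

/-- The generated language. -/
def Grammar.lang (G : Grammar) : Set (List ℕ) :=
  {w | (∀ a ∈ w, a ∈ G.T) ∧ Relation.ReflTransGen G.Step [G.S] w}

/-- Every left side is a single nonterminal. -/
def Grammar.IsCF (G : Grammar) : Prop :=
  ∀ p ∈ G.P, ∃ A : ℕ, A ∉ G.T ∧ p.1 = [A]

/-- `Subst μ u v`: the word `v` lies in the image `μ(u)` of `u` under the finite substitution. -/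
inductive Subst (μ : ℕ → Finset (List ℕ)) : List ℕ → List ℕ → Prop
  | nil : Subst μ [] []
  | cons {a : ℕ} {u b v : List ℕ} : b ∈ μ a → Subst μ u v → Subst μ (a :: u) (b ++ v)

/-- `G₁` is a g-interpretation of `G₂` through the finite substitution `μ`. -/
structure InterpVia (G₁ G₂ : Grammar) (μ : ℕ → Finset (List ℕ)) : Prop where
  term : ∀ a ∈ G₂.T, ∀ b ∈ μ a, ∀ c ∈ b, c ∈ G₁.T
  nonterm : ∀ A ∈ G₂.V, A ∉ G₂.T → ∀ b ∈ μ A, ∃ B : ℕ, b = [B] ∧ B ∈ G₁.V ∧ B ∉ G₁.T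
  disj : ∀ A ∈ G₂.V, A ∉ G₂.T → ∀ B ∈ G₂.V, B ∉ G₂.T → A ≠ B → Disjoint (μ A) (μ B)
  prods : ∀ p ∈ G₁.P, ∃ q ∈ G₂.P, Subst μ q.1 p.1 ∧ Subst μ q.2 p.2
  start : [G₁.S] ∈ μ G₂.S

/-- The g-grammatical family of a grammar form. -/
def gFamily (G : Grammar) : Set (Set (List ℕ)) :=
  {L | ∃ (G' : Grammar) (μ : ℕ → Finset (List ℕ)), InterpVia G' G μ ∧ L = G'.lang}

/-- The context-free languages. -/
def cfFamily : Set (Set (List ℕ)) :=
  {L | ∃ G : Grammar, G.IsCF ∧ L = G.lang}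

/-- The recursively enumerable languages (over finite alphabets). -/
def reFamily : Set (Set (List ℕ)) :=
  {L | (∃ T : Finset ℕ, ∀ w ∈ L, ∀ a ∈ w, a ∈ T) ∧ REPred (fun w : List ℕ => w ∈ L)}

/-- Inclusion of families, languages being identified when they differ at most by the empty word. -/
def FamLE (F₁ F₂ : Set (Set (List ℕ))) : Prop :=
  ∀ L₁ ∈ F₁, ∃ L₂ ∈ F₂, L₁ \ {[]} = L₂ \ {[]}

end Pool.Agent.MP_c20a26_lc
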