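import Pool.Agent.MP_c20a26_lc.Auto

set_option autoImplicit false

namespace Pool.Agent.MP_c20a26_lc

open Sum

abbrev Flag := Q3 ⊕ Bool
abbrev Sym := Flag × Flag × Gam × ℕ

structure Item where
  l : Flag
  r : Flag
  g : Gam
  v : Option ℕ

def vis (Z : List Item) : List ℕ := Z.filterMap Item.v
def val (Z : List Item) : Gam := (Z.map Item.g).prod

@[simp] theorem vis_nil : vis [] = [] := rfl
theorem vis_cons (it : Item) (Z : List Item) : vis (it :: Z) = it.v.toList ++ vis Z := by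
  unfold vis
  cases h : it.v <;> simp [h]
@[simp] theorem vis_append (Z Z' : List Item) : vis (Z ++ Z') = vis Z ++ vis Z' :=
  List.filterMap_append
@[simp] theorem val_nil : val [] = 1 := rfl
@[simp] theorem val_cons (it : Item) (Z : List Item) : val (it :: Z) = it.g * val Z := by
  simp [val]
@[simp] theorem val_append (Z Z' : List Item) : val (Z ++ Z') = val Z * val Z' := by
  simp [val]

inductive Chain : Flag → List Item → Flag → Prop
  | nil (f : Flag) : Chain f [] f
  | cons {it : Item} {Z : List Item} {f : Flag} : Chain it.r Z f → Chain it.l (it :: Z) f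

theorem Chain.append {a b c : Flag} {Z Z' : List Item} (h : Chain a Z b) (h' : Chain b Z' c) :
    Chain a (Z ++ Z') c := by
  induction h with
  | nil => exact h'
  | cons _ ih => exact Chain.cons (ih h')

theorem Chain.cons_inv {a c : Flag} {it : Item} {Z : List Item} (h : Chain a (it :: Z) c) :
    a = it.l ∧ Chain it.r Z c := by
  cases h with
  | cons h => exact ⟨rfl, h⟩

theorem Chain.split : ∀ (Z Z' : List Item) (a c : Flag), Chain a (Z ++ Z') c →
    ∃ b, Chain a Z b ∧ Chain b Z' c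
  | [], _, a, _, h => ⟨a, Chain.nil a, h⟩
  | it :: Z, Z', a, c, h => by
    obtain ⟨rfl, h'⟩ := Chain.cons_inv h
    obtain ⟨b, h1, h2⟩ := Chain.split Z Z' _ c h'
    exact ⟨b, Chain.cons h1, h2⟩

theorem Chain.det {a b c : Flag} {Z : List Item} (h : Chain a Z b) (h' : Chain a Z c) : b = c := by
  induction h with
  | nil => cases h'; rfl
  | cons _ ih => exact ih h'.cons_inv.2

def Inner : List Item → Prop
  | [] => True
  | [_] => True
  | it :: it' :: A => (∃ b, it.r = inr b) ∧ Inner (it' :: A)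

theorem subst_append {μ : ℕ → Finset (List ℕ)} {u v u' v' : List ℕ} (h : Subst μ u v)
    (h' : Subst μ u' v') : Subst μ (u ++ u') (v ++ v') := by
  induction h with
  | nil => exact h'
  | cons hb _ ih => rw [List.append_assoc]; exact Subst.cons hb ih

theorem subst_finite (μ : ℕ → Finset (List ℕ)) : ∀ u : List ℕ, {v | Subst μ u v}.Finite
  | [] => (Set.finite_singleton []).subset fun v hv => by cases hv; rfl
  | a :: u => (((μ a).finite_toSet.prod (subst_finite μ u)).image fun p => p.1 ++ p.2).subset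
      fun v hv => by
        cases hv with
        | cons hb h => exact ⟨(_, _), ⟨hb, h⟩, rfl⟩

theorem subst_mem {μ : ℕ → Finset (List ℕ)} {u v : List ℕ} (h : Subst μ u v) :
    ∀ c ∈ v, ∃ a ∈ u, ∃ b ∈ μ a, c ∈ b := by
  induction h with
  | nil => simp
  | @cons a u b v hb _ ih =>
    intro c hc
    rcases List.mem_append.1 hc with hc | hc
    · exact ⟨a, by simp, b, hb, hc⟩
    · obtain ⟨a', h1, h2⟩ := ih c hc
      exact ⟨a', by simp [h1], h2⟩

theorem subst_mem' {μ : ℕ → Finset (List ℕ)} {u v : List ℕ} (h : Subst μ u v) :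
    ∀ a ∈ u, ∃ b ∈ μ a, ∀ c ∈ b, c ∈ v := by
  induction h with
  | nil => simp
  | @cons a u b v hb _ ih =>
    intro a' ha
    rcases List.mem_cons.1 ha with rfl | ha
    · exact ⟨b, hb, fun c hc => by simp [hc]⟩
    · obtain ⟨b', h1, h2⟩ := ih a' ha
      exact ⟨b', h1, fun c hc => by simp [h2 c hc]⟩

/-- Short group elements. -/
def B1 (H : Grammar) (K : ℕ) : Set FG :=
  {g | ∃ l : List (Option ℕ), (l.length ≤ K ∧ ∀ a ∈ l, a ∈ insert none (some '' (H.V : Set ℕ))) ∧
    (g = pw l ∨ g = (pw l)⁻¹)}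

theorem B1_finite (H : Grammar) (K : ℕ) : (B1 H K).Finite := by
  have h := finite_lists ((H.V.finite_toSet.image some).insert none) K
  refine ((h.image pw).union (h.image fun l => (pw l)⁻¹)).subset ?_
  rintro g ⟨l, hl, rfl | rfl⟩
  · exact Or.inl ⟨l, hl, rfl⟩
  · exact Or.inr ⟨l, hl, rfl⟩

theorem B1_mem {H : Grammar} {K : ℕ} {X : List (Option ℕ)} (hX : ∀ a, some a ∈ X → a ∈ H.V)
    {i j : ℕ} (h1 : i ≤ j + K) (h2 : j ≤ i + K) :
    (pw (X.take i))⁻¹ * pw (X.take j) ∈ B1 H K := by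
  have hm : ∀ i n, n ≤ K → ((X.drop i).take n).length ≤ K ∧
      ∀ a ∈ (X.drop i).take n, a ∈ insert none (some '' (H.V : Set ℕ)) := by
    intro i n hn
    refine ⟨(List.length_take_le _ _).trans hn, fun a ha => ?_⟩
    cases a with
    | none => exact Or.inl rfl
    | some a => exact Or.inr ⟨a, hX a (List.mem_of_mem_drop (List.mem_of_mem_take ha)), rfl⟩
  rcases le_total i j with h | h
  · obtain ⟨n, rfl⟩ := Nat.exists_eq_add_of_le h
    exact ⟨_, hm i n (by omega), Or.inl (by rw [List.take_add, pw_append]; simp)⟩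
  · obtain ⟨n, rfl⟩ := Nat.exists_eq_add_of_le h
    exact ⟨_, hm j n (by omega), Or.inr (by rw [List.take_add, pw_append]; simp)⟩

section
variable (G H : Grammar) (code : Sym → ℕ) (K : ℕ)

def Coded (it : Item) : Prop :=
  ∃ s ∈ G.V, it.v = some (code (it.l, it.r, it.g, s)) ∧
    (s ∈ G.T → it.r = inr true ∨ it.l = inr false)

def Trans' (it : Item) : Prop := ∃ q q', it.l = inl q ∧ it.r = inl q' ∧ Tr H q it.v it.g q'

def OKI (it : Item) : Prop := Coded G code it ∨ Trans' H it

def SoundRule (p : List ℕ × List ℕ) : Prop :=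
  ∃ A B f f', vis A = p.1 ∧ vis B = p.2 ∧ (∀ it ∈ A, Coded G code it) ∧ Inner A ∧
    (∀ it ∈ B, OKI G H code it) ∧ Chain f A f' ∧ Chain f B f' ∧ val A = val B

def codes (S : Set ℕ) : Set ℕ := code '' (Set.univ ×ˢ Set.univ ×ˢ (B1 H K ×ˢ B1 H K) ×ˢ S)

theorem codes_finite {S : Set ℕ} (hS : S.Finite) : (codes H code K S).Finite :=
  (Set.finite_univ.prod (Set.finite_univ.prod
    (((B1_finite H K).prod (B1_finite H K)).prod hS))).image _

def muS (s : ℕ) : Set (List ℕ) :=
  {b | (s ∈ G.T ∧ (b = [] ∨ ∃ a ∈ H.T, b = [a])) ∨ ∃ c ∈ codes H code K {s}, b = [c]}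

theorem muS_finite (s : ℕ) : (muS G H code K s).Finite := by
  refine (((Set.finite_singleton []).union (H.T.finite_toSet.image fun a => [a])).union
    ((codes_finite H code K (Set.finite_singleton s)).image fun a => [a])).subset ?_
  rintro b (⟨-, rfl | ⟨a, ha, rfl⟩⟩ | ⟨c, hc, rfl⟩)
  · exact Or.inl (Or.inl rfl)
  · exact Or.inl (Or.inr ⟨a, ha, rfl⟩)
  · exact Or.inr ⟨c, hc, rfl⟩

noncomputable def muF (s : ℕ) : Finset (List ℕ) := (muS_finite G H code K s).toFinset

theorem mem_muF {s : ℕ} {b : List ℕ} : b ∈ muF G H code K s ↔ b ∈ muS G H code K s :=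
  Set.Finite.mem_toFinset _

def P1 : Set (List ℕ × List ℕ) :=
  {p | (∃ q ∈ G.P, Subst (muF G H code K) q.1 p.1 ∧ Subst (muF G H code K) q.2 p.2) ∧
    SoundRule G H code p}

theorem P1_finite : (P1 G H code K).Finite := by
  refine (G.P.finite_toSet.biUnion fun q _ =>
    (subst_finite (muF G H code K) q.1).prod (subst_finite (muF G H code K) q.2)).subset ?_
  rintro p ⟨⟨q, hq, h1, h2⟩, -⟩
  exact Set.mem_biUnion hq ⟨h1, h2⟩

variable {G H code K}

theorem one_B1 : (1 : FG) ∈ B1 H K := ⟨[], by simp, Or.inl rfl⟩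

theorem codes_mono {S S' : Set ℕ} (h : S ⊆ S') : codes H code K S ⊆ codes H code K S' := by
  rintro c ⟨σ, ⟨h1, h2, h3, h4⟩, rfl⟩
  exact ⟨σ, ⟨h1, h2, h3, h h4⟩, rfl⟩

variable (hi : Function.Injective code) (hT : ∀ σ, code σ ∉ H.T)
include hi

theorem codes_inv {S : Set ℕ} {σ : Sym} (h : code σ ∈ codes H code K S) : σ.2.2.2 ∈ S := by
  obtain ⟨σ', h', e⟩ := h
  rw [← hi e]
  exact h'.2.2.2

include hT

variable (G H code K) in
/-- The simulating interpretation. -/
noncomputable def simG : Grammar where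
  V := H.T ∪ (codes_finite H code K G.V.finite_toSet).toFinset
  T := H.T ∪ (codes_finite H code K G.T.finite_toSet).toFinset
  P := (P1_finite G H code K).toFinset
  S := code (inl none, inl (some true), 1, G.S)
  T_sub := Finset.union_subset_union_right
    (Set.Finite.toFinset_subset_toFinset.2 (codes_mono G.T_sub))
  S_mem := Finset.mem_union_right _ ((Set.Finite.mem_toFinset _).2
    ⟨_, ⟨trivial, trivial, ⟨one_B1, one_B1⟩, G.S_mem⟩, rfl⟩)
  S_not := by
    intro h
    rcases Finset.mem_union.1 h with h | h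
    · exact hT _ h
    · exact G.S_not (codes_inv hi ((Set.Finite.mem_toFinset _).1 h))
  lhs_mem := by
    intro p hp c hc
    obtain ⟨⟨q, hq, h1, -⟩, -⟩ := (Set.Finite.mem_toFinset _).1 hp
    obtain ⟨a, ha, b, hb, hc⟩ := subst_mem h1 c hc
    rcases (mem_muF G H code K).1 hb with ⟨-, rfl | ⟨a', ha', rfl⟩⟩ | ⟨c', hc', rfl⟩
    · simp at hc
    · rw [List.mem_singleton.1 hc]
      exact Finset.mem_union_left _ ha'
    · rw [List.mem_singleton.1 hc]
      exact Finset.mem_union_right _ ((Set.Finite.mem_toFinset _).2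
        (codes_mono (by simpa using G.lhs_mem q hq a ha) hc'))
  rhs_mem := by
    intro p hp c hc
    obtain ⟨⟨q, hq, -, h1⟩, -⟩ := (Set.Finite.mem_toFinset _).1 hp
    obtain ⟨a, ha, b, hb, hc⟩ := subst_mem h1 c hc
    rcases (mem_muF G H code K).1 hb with ⟨-, rfl | ⟨a', ha', rfl⟩⟩ | ⟨c', hc', rfl⟩
    · simp at hc
    · rw [List.mem_singleton.1 hc]
      exact Finset.mem_union_left _ ha'
    · rw [List.mem_singleton.1 hc]
      exact Finset.mem_union_right _ ((Set.Finite.mem_toFinset _).2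
        (codes_mono (by simpa using G.rhs_mem q hq a ha) hc'))
  lhs_nt := by
    intro p hp
    obtain ⟨⟨q, hq, h1, -⟩, -⟩ := (Set.Finite.mem_toFinset _).1 hp
    obtain ⟨a, ha, ha'⟩ := G.lhs_nt q hq
    obtain ⟨b, hb, hc⟩ := subst_mem' h1 a ha
    rcases (mem_muF G H code K).1 hb with ⟨h, -⟩ | ⟨c', ⟨σ, hσ, rfl⟩, rfl⟩
    · exact absurd h ha'
    · refine ⟨_, hc _ (List.mem_singleton_self _), fun h => ?_⟩
      rcases Finset.mem_union.1 h with h | h
      · exact hT _ h
      · have h2 := codes_inv hi ((Set.Finite.mem_toFinset _).1 h)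
        rw [show σ.2.2.2 = a from hσ.2.2.2] at h2
        exact ha' h2

theorem simG_interp : InterpVia (simG G H code K hi hT) G (muF G H code K) where
  term := by
    intro a ha b hb c hc
    rcases (mem_muF G H code K).1 hb with ⟨-, rfl | ⟨a', ha', rfl⟩⟩ | ⟨c', hc', rfl⟩
    · simp at hc
    · rw [List.mem_singleton.1 hc]
      exact Finset.mem_union_left _ ha'
    · rw [List.mem_singleton.1 hc]
      exact Finset.mem_union_right _ ((Set.Finite.mem_toFinset _).2
        (codes_mono (by simpa using ha) hc'))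
  nonterm := by
    intro A hA hA' b hb
    rcases (mem_muF G H code K).1 hb with ⟨h, -⟩ | ⟨c', ⟨σ, hσ, rfl⟩, rfl⟩
    · exact absurd h hA'
    · refine ⟨_, rfl, Finset.mem_union_right _ ((Set.Finite.mem_toFinset _).2
        (codes_mono (by simpa using hA) ⟨σ, hσ, rfl⟩)), fun h => ?_⟩
      rcases Finset.mem_union.1 h with h | h
      · exact hT _ h
      · have h2 := codes_inv hi ((Set.Finite.mem_toFinset _).1 h)
        rw [show σ.2.2.2 = A from hσ.2.2.2] at h2
        exact hA' h2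
  disj := by
    intro A _ hA B _ hB hne
    rw [Finset.disjoint_left]
    intro b h1 h2
    rcases (mem_muF G H code K).1 h1 with ⟨h, -⟩ | ⟨c', ⟨σ, hσ, rfl⟩, rfl⟩
    · exact hA h
    rcases (mem_muF G H code K).1 h2 with ⟨h, -⟩ | ⟨c', hc', e⟩
    · exact hB h
    rw [← List.singleton_inj.1 e] at hc'
    exact hne ((show σ.2.2.2 = A from hσ.2.2.2).symm.trans (codes_inv hi hc'))
  prods := fun p hp => ((Set.Finite.mem_toFinset _).1 hp).1
  start := (mem_muF G H code K).2
    (Or.inr ⟨_, ⟨(inl none, inl (some true), 1, G.S),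
      ⟨trivial, trivial, ⟨one_B1, one_B1⟩, rfl⟩, rfl⟩, rfl⟩)

theorem item_eq {it it' : Item} (h : Coded G code it) (h' : OKI G H code it')
    (e : it'.v = it.v) : it' = it := by
  obtain ⟨s, -, h1, -⟩ := h
  rcases h' with ⟨s', -, h2, -⟩ | ⟨q, q', -, -, h2⟩
  · have := hi (Option.some.inj (h2.symm.trans (e.trans h1)))
    simp only [Prod.mk.injEq] at this
    cases it
    cases it'
    simp only [Item.mk.injEq]
    exact ⟨this.1, this.2.1, this.2.2.1, e⟩
  · rw [e, h1] at h2
    exact absurd h2.mem (hT _)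

omit hi hT in
theorem vis_split : ∀ (Z : List Item) (x : List ℕ) (c : ℕ) (r : List ℕ), vis Z = x ++ c :: r →
    ∃ X it Z', Z = X ++ it :: Z' ∧ vis X = x ∧ it.v = some c ∧ vis Z' = r
  | [], x, c, r, h => by simp at h
  | it :: Z, x, c, r, h => by
    rw [vis_cons] at h
    cases e : it.v with
    | none =>
      rw [e] at h
      obtain ⟨X, it', Z', h1, h2, h3, h4⟩ := vis_split Z x c r h
      exact ⟨it :: X, it', Z', by simp [h1], by simp [vis_cons, e, h2], h3, h4⟩
    | some d =>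
      rw [e] at h
      cases x with
      | nil =>
        simp only [Option.toList_some, List.singleton_append, List.nil_append,
          List.cons.injEq] at h
        exact ⟨[], it, Z, rfl, rfl, by rw [e, h.1], h.2⟩
      | cons d' x =>
        simp only [Option.toList_some, List.cons_append, List.nil_append, List.cons.injEq] at h
        obtain ⟨X, it', Z', h1, h2, h3, h4⟩ := vis_split Z x c r h.2
        exact ⟨it :: X, it', Z', by simp [h1], by simp [vis_cons, e, h2, h.1], h3, h4⟩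

theorem match_lhs (y : List ℕ) (f' : Flag) : ∀ (A : List Item) (it : Item) (Z : List Item),
    (∀ a ∈ A, Coded G code a) → Inner (it :: A) → (∀ a ∈ Z, OKI G H code a) →
    Chain it.r Z f' → vis Z = vis A ++ y → ∃ Y, Z = A ++ Y ∧ vis Y = y
  | [], _, Z, _, _, _, _, h => ⟨Z, rfl, h⟩
  | a :: A, it, Z, hA, hI, hZ, hc, h => by
    obtain ⟨⟨b, hb⟩, hI'⟩ := hI
    have ha := hA a (by simp)
    obtain ⟨s, -, hs, -⟩ := id ha
    cases Z with
    | nil => simp [vis_cons, hs] at h
    | cons z Z =>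
      obtain ⟨e1, e2⟩ := hc.cons_inv
      have hz := hZ z (by simp)
      have hv : z.v = a.v ∧ vis Z = vis A ++ y := by
        rcases hz with ⟨s', -, h2, -⟩ | ⟨q, q', h2, -, -⟩
        · simp only [vis_cons, hs, h2, Option.toList_some, List.cons_append, List.nil_append,
            List.cons.injEq] at h
          exact ⟨by rw [h2, hs, h.1], h.2⟩
        · rw [← e1, hb] at h2
          cases h2
      have := item_eq hi hT ha hz hv.1
      subst this
      obtain ⟨Y, rfl, hY⟩ := match_lhs y f' A z Z (fun a ha => hA a (by simp [ha])) hI'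
        (fun a ha => hZ a (by simp [ha])) e2 hv.2
      exact ⟨Y, rfl, hY⟩

theorem sim_inv {z : List ℕ}
    (h : Relation.ReflTransGen (simG G H code K hi hT).Step [(simG G H code K hi hT).S] z) :
    ∃ Z, vis Z = z ∧ (∀ a ∈ Z, OKI G H code a) ∧ Chain (inl none) Z (inl (some true)) ∧
      val Z = 1 := by
  induction h with
  | refl =>
    refine ⟨[⟨inl none, inl (some true), 1, some (code (inl none, inl (some true), 1, G.S))⟩],
      rfl, ?_, Chain.cons (it := ⟨inl none, inl (some true), 1, _⟩) (Chain.nil _), by simp⟩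
    intro a ha
    rw [List.mem_singleton.1 ha]
    exact Or.inl ⟨G.S, G.S_mem, rfl, fun h => absurd h G.S_not⟩
  | tail _ hs ih =>
    obtain ⟨x, y, p, hp, rfl, rfl⟩ := hs
    obtain ⟨Z, h1, h2, h3, h4⟩ := ih
    have hl := lhs_ne hp
    obtain ⟨-, A, B, f, f', a1, a2, a3, a4, a5, a6, a7, a8⟩ := (Set.Finite.mem_toFinset _).1 hp
    cases A with
    | nil => rw [← a1] at hl; simp at hl
    | cons a A =>
      have ha := a3 a (by simp)
      obtain ⟨s, -, hs, -⟩ := id ha
      rw [← a1, vis_cons, hs] at h1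
      obtain ⟨X, it, Z', rfl, k2, k3, k4⟩ := vis_split Z x _ (vis A ++ y) (by simpa using h1)
      have := item_eq hi hT ha (h2 it (by simp)) (k3.trans hs.symm)
      subst this
      obtain ⟨b, c1, c2⟩ := Chain.split _ _ _ _ h3
      obtain ⟨Y, rfl, hY⟩ := match_lhs hi hT y _ A it Z' (fun a ha => a3 a (by simp [ha])) a4
        (fun a ha => h2 a (by simp [ha])) c2.cons_inv.2 k4
      obtain ⟨b', c3, c4⟩ := Chain.split (it :: A) Y _ _ c2
      have e1 : b = f := c3.cons_inv.1.trans a6.cons_inv.1.symm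
      subst e1
      have e2 : b' = f' := c3.det a6
      subst e2
      refine ⟨X ++ B ++ Y, by simp [k2, a2, hY], ?_, (c1.append a7).append c4, ?_⟩
      · intro a ha
        simp only [List.mem_append] at ha
        rcases ha with (ha | ha) | ha
        · exact h2 a (by simp [ha])
        · exact a5 a ha
        · exact h2 a (by simp [ha])
      · rw [← h4, val_append, val_append, ← a8]
        simp [mul_assoc]

omit hi hT in
theorem chain_final {f f' : Flag} {Z : List Item} (h : Chain f Z f')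
    (hZ : ∀ a ∈ Z, (a.r = inr true ∨ a.l = inr false) ∨ Trans' H a) :
    (f = inr true → f' = inr true) ∧
      ∀ q q', f = inl q → f' = inl q' → APath H q (vis Z) (val Z) q' := by
  induction h with
  | nil =>
    refine ⟨id, ?_⟩
    rintro q q' rfl e
    cases e
    exact APath.nil _
  | @cons it Z f _ ih =>
    obtain ⟨i1, i2⟩ := ih fun a ha => hZ a (by simp [ha])
    rcases hZ it (by simp) with (h | h) | ⟨q₁, q₂, h1, h2, h3⟩
    · refine ⟨fun _ => i1 h, fun q q' _ e => ?_⟩
      rw [i1 h] at e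
      cases e
    · refine ⟨fun e => ?_, fun q q' e _ => ?_⟩ <;> rw [h] at e <;> cases e
    · refine ⟨fun e => ?_, fun q q' e e' => ?_⟩
      · rw [h1] at e
        cases e
      · rw [h1] at e
        cases e
        rw [vis_cons, val_cons]
        exact APath.cons h3 (i2 _ _ h2 e')

theorem sim_sound : (simG G H code K hi hT).lang ⊆ H.lang := by
  rintro w ⟨hw, hd⟩
  obtain ⟨Z, rfl, h2, h3, h4⟩ := sim_inv hi hT hd
  have := (chain_final (H := H) h3 fun a ha => ?_).2 _ _ rfl rfl
  · rw [h4] at this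
    exact this.sound
  · rcases h2 a ha with ⟨s, -, k1, k2⟩ | h
    · refine Or.inl (k2 ?_)
      have := hw _ (List.mem_filterMap.2 ⟨a, ha, k1⟩)
      rcases Finset.mem_union.1 this with h | h
      · exact absurd h (hT _)
      · exact codes_inv hi ((Set.Finite.mem_toFinset _).1 h)
    · exact Or.inr h

end

section Complete
variable (G H : Grammar) (code : Sym → ℕ) (K : ℕ) (X : List (Option ℕ))

abbrev Gap := Flag × ℕ × ℕ

structure ItemOK (φ φ' : Gap) (s : ℕ) (it : Item) : Prop where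
  l : it.l = φ.1
  r : it.r = φ'.1
  g : it.g = (gv X φ.2)⁻¹ * gv X φ'.2
  ok : OKI G H code it
  mem : it.v.toList ∈ muF G H code K s
  nt : s ∉ G.T → it.v = some (code (it.l, it.r, it.g, s))

inductive Dec (φ : ℕ → Gap) : ℕ → List ℕ → List Item → Prop
  | nil (p : ℕ) : Dec φ p [] []
  | cons {p s : ℕ} {z : List ℕ} {it : Item} {Z : List Item} :
      ItemOK G H code K X (φ p) (φ (p + 1)) s it → Dec φ (p + 1) z Z → Dec φ p (s :: z) (it :: Z)

variable {G H code K X}

theorem Dec.facts {φ : ℕ → Gap} {p : ℕ} {z : List ℕ} {Z : List Item}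
    (h : Dec G H code K X φ p z Z) :
    Subst (muF G H code K) z (vis Z) ∧ (∀ a ∈ Z, OKI G H code a) ∧
      Chain (φ p).1 Z (φ (p + z.length)).1 ∧
      val Z = (gv X (φ p).2)⁻¹ * gv X (φ (p + z.length)).2 := by
  induction h with
  | nil => exact ⟨Subst.nil, by simp, Chain.nil _, by simp⟩
  | @cons p s z it Z h1 _ ih =>
    obtain ⟨i1, i2, i3, i4⟩ := ih
    rw [List.length_cons, show p + (z.length + 1) = p + 1 + z.length by omega]
    refine ⟨by rw [vis_cons]; exact Subst.cons h1.mem i1, ?_, ?_, ?_⟩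
    · intro a ha
      rcases List.mem_cons.1 ha with rfl | ha
      · exact h1.ok
      · exact i2 a ha
    · rw [← h1.l]
      exact Chain.cons (by rwa [h1.r])
    · rw [val_cons, i4, h1.g]
      simp [mul_assoc]

theorem Dec.append {φ : ℕ → Gap} {p : ℕ} {z z' : List ℕ} {Z Z' : List Item}
    (h : Dec G H code K X φ p z Z) (h' : Dec G H code K X φ (p + z.length) z' Z') :
    Dec G H code K X φ p (z ++ z') (Z ++ Z') := by
  induction h with
  | nil => exact h'
  | @cons p s z it Z h1 _ ih =>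
    refine Dec.cons h1 (ih ?_)
    rwa [List.length_cons, show p + (z.length + 1) = p + 1 + z.length by omega] at h'

theorem Dec.split {φ : ℕ → Gap} (z' : List ℕ) : ∀ (z : List ℕ) (p : ℕ) (W : List Item),
    Dec G H code K X φ p (z ++ z') W → ∃ Z Z', W = Z ++ Z' ∧ Dec G H code K X φ p z Z ∧
      Dec G H code K X φ (p + z.length) z' Z'
  | [], p, W, h => ⟨[], W, rfl, Dec.nil p, h⟩
  | s :: z, p, W, h => by
    rw [List.cons_append] at h
    cases h with
    | cons h1 h2 =>
      obtain ⟨Z, Z', rfl, k1, k2⟩ := Dec.split z' z _ _ h2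
      refine ⟨_ :: Z, Z', rfl, Dec.cons h1 k1, ?_⟩
      rwa [List.length_cons, show p + (z.length + 1) = p + 1 + z.length by omega]

theorem Dec.shift {φ ψ : ℕ → Gap} {p : ℕ} {z : List ℕ} {Z : List Item}
    (h : Dec G H code K X φ p z Z) : ∀ q, (∀ i ≤ z.length, φ (p + i) = ψ (q + i)) →
    Dec G H code K X ψ q z Z := by
  induction h with
  | nil => exact fun q _ => Dec.nil q
  | @cons p s z it Z h1 _ ih =>
    intro q hq
    have e0 : φ p = ψ q := hq 0 (by omega)
    have e1 : φ (p + 1) = ψ (q + 1) := hq 1 (by simp)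
    rw [e0, e1] at h1
    refine Dec.cons h1 (ih _ fun i hi => ?_)
    have := hq (i + 1) (by simpa using hi)
    rwa [show p + (i + 1) = p + 1 + i by omega, show q + (i + 1) = q + 1 + i by omega] at this

theorem dec_lhs (hX : ∀ a, some a ∈ X → a ∈ H.V) {φ : ℕ → Gap}
    (L1 : ∀ i, (φ i).2.1 ≤ (φ (i + 1)).2.1 + K ∧ (φ (i + 1)).2.1 ≤ (φ i).2.1 + K)
    (L2 : ∀ i, (φ i).2.2 ≤ (φ (i + 1)).2.2 + K ∧ (φ (i + 1)).2.2 ≤ (φ i).2.2 + K) :
    ∀ (l : List ℕ) (p : ℕ), (∀ a ∈ l, a ∈ G.V) →
      (∀ i (h : i < l.length), l[i] ∈ G.T → (φ (p + i + 1)).1 = inr true ∨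
        (φ (p + i)).1 = inr false) →
      (∀ i, 0 < i → i < l.length → ∃ b, (φ (p + i)).1 = inr b) →
      ∃ A, Dec G H code K X φ p l A ∧ (∀ a ∈ A, Coded G code a) ∧ Inner A
  | [], p, _, _, _ => ⟨[], Dec.nil p, by simp, trivial⟩
  | s :: l, p, h1, h2, h3 => by
    obtain ⟨A, a1, a2, a3⟩ := dec_lhs hX L1 L2 l (p + 1) (fun a ha => h1 a (by simp [ha]))
      (fun i hi ht => by
        have := h2 (i + 1) (by simpa using hi) (by simpa using ht)
        rwa [show p + (i + 1) = p + 1 + i by omega] at this)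
      (fun i _ hi => by
        have := h3 (i + 1) (by omega) (by simpa using hi)
        rwa [show p + (i + 1) = p + 1 + i by omega] at this)
    set it : Item := ⟨(φ p).1, (φ (p + 1)).1, (gv X (φ p).2)⁻¹ * gv X (φ (p + 1)).2,
      some (code ((φ p).1, (φ (p + 1)).1, (gv X (φ p).2)⁻¹ * gv X (φ (p + 1)).2, s))⟩ with hit
    have hc : Coded G code it := ⟨s, h1 s (by simp), rfl, fun ht => h2 0 (by simp) ht⟩
    refine ⟨it :: A, Dec.cons ⟨rfl, rfl, rfl, Or.inl hc, ?_, fun _ => rfl⟩ a1, ?_, ?_⟩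
    · exact (mem_muF G H code K).2 (Or.inr ⟨_, ⟨(it.l, it.r, it.g, s), ⟨trivial, trivial,
        ⟨B1_mem hX (L1 p).1 (L1 p).2, B1_mem hX (L2 p).1 (L2 p).2⟩, rfl⟩, rfl⟩, rfl⟩)
    · intro a ha
      rcases List.mem_cons.1 ha with rfl | ha
      · exact hc
      · exact a2 a ha
    · cases a1 with
      | nil => trivial
      | cons _ _ => exact ⟨h3 1 (by omega) (by simp), a3⟩

theorem sim_back (hi : Function.Injective code) (hT : ∀ σ, code σ ∉ H.T)
    (hX : ∀ a, some a ∈ X → a ∈ H.V) : ∀ (D : List St) (z : List ℕ) (φ : ℕ → Gap)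
    (Z : List Item), Valid G D z → Dec G H code K X φ 0 z Z →
    (∀ i j, (φ i).2.1 ≤ (φ j).2.1 + K * cd D i j) → (∀ i j, (φ i).2.2 ≤ (φ j).2.2 + K * cd D i j) →
    φ 0 = (inl none, 0, 0) → φ z.length = (inl (some true), 0, 0) →
    Relation.ReflTransGen (simG G H code K hi hT).Step [(simG G H code K hi hT).S] (vis Z)
  | [], z, φ, Z, hD, hZ, _, _, e0, e1 => by
    have h' : z = [G.S] := hD
    subst h'
    cases hZ with
    | cons h1 h2 =>
      cases h2
      have := h1.nt G.S_not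
      rw [h1.l, h1.r, h1.g, e0, show φ (0 + 1) = (inl (some true), 0, 0) from e1] at this
      rw [vis_cons, this]
      simp only [inv_mul_cancel]
      exact Relation.ReflTransGen.refl
  | s :: D, z, φ, Z, hD, hZ, L1, L2, e0, e1 => by
    obtain ⟨rfl, hp, hD⟩ := hD
    have hl : 0 < s.l.length := lhs_ne hp
    obtain ⟨N, hN, hN'⟩ := G.lhs_nt _ hp
    obtain ⟨k, hk, hkN⟩ := List.getElem_of_mem hN
    simp only at hk hkN
    set A : Set ℕ := {g | g ≤ s.x.length ∨ s.x.length + s.l.length ≤ g} with hA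
    obtain ⟨F1, f1, f1'⟩ := mcshane (cd D) (cd_self D) (cd_tri D) A ⟨0, Or.inl (by omega)⟩ K
      (fun g => (φ (sg s g)).2.1) fun a ha b hb =>
        (L1 _ _).trans (Nat.add_le_add_left (Nat.mul_le_mul_left _ (cd_sg s D ha hb hl)) _)
    obtain ⟨F2, f2, f2'⟩ := mcshane (cd D) (cd_self D) (cd_tri D) A ⟨0, Or.inl (by omega)⟩ K
      (fun g => (φ (sg s g)).2.2) fun a ha b hb =>
        (L2 _ _).trans (Nat.add_le_add_left (Nat.mul_le_mul_left _ (cd_sg s D ha hb hl)) _)
    set ψ : ℕ → Gap := fun g => (if g ≤ s.x.length ∨ s.x.length + s.l.length ≤ g then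
      (φ (sg s g)).1 else inr (decide (g ≤ s.x.length + k)), F1 g, F2 g) with hψ
    have hs : ∀ g, g ≤ s.x.length ∨ s.x.length + s.l.length ≤ g → ψ g = φ (sg s g) := by
      intro g hg
      simp only [hψ, if_pos hg, f1 g hg, f2 g hg]
    have hs1 : ∀ g, g ≤ s.x.length → ψ g = φ g := by
      intro g hg
      rw [hs g (Or.inl hg), sg, if_pos hg]
    have hs2 : ∀ i, ψ (s.x.length + s.l.length + i) = φ (s.x.length + s.r.length + i) := by
      intro i
      rw [hs _ (Or.inr (by omega)), sg, if_neg (by omega)]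
      congr 1
      omega
    have hs3 : ∀ i, 0 < i → i < s.l.length → (ψ (s.x.length + i)).1 = inr (decide (i ≤ k)) := by
      intro i h1 h2
      simp only [hψ]
      rw [if_neg (by omega)]
      simp
    obtain ⟨Z₁, Zy, rfl, k1, k2⟩ := Dec.split _ _ _ _ hZ
    obtain ⟨Zx, Zr, rfl, k3, k4⟩ := Dec.split _ _ _ _ k1
    have lip : ∀ F : ℕ → ℕ, (∀ a b, F a ≤ F b + K * cd D a b) →
        ∀ i, F i ≤ F (i + 1) + K ∧ F (i + 1) ≤ F i + K := by
      intro F hF i
      have h1 := hF i (i + 1)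
      have h2 := hF (i + 1) i
      rw [cd_comm] at h2
      have h3 := Nat.mul_le_mul_left K (cd_succ D i)
      omega
    obtain ⟨B, b1, b2, b3⟩ := dec_lhs (G := G) (code := code) (φ := ψ) hX (lip F1 f1')
      (lip F2 f2') s.l s.x.length (G.lhs_mem _ hp) (by
        intro i h ht
        have hik : i ≠ k := by
          rintro rfl
          exact hN' (hkN ▸ ht)
        by_cases h' : i < k
        · left
          rw [Nat.add_assoc, hs3 _ (by omega) (by omega), decide_eq_true (by omega)]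
        · right
          rw [hs3 _ (by omega) h, decide_eq_false (by omega)])
      fun i h1 h2 => ⟨_, hs3 i h1 h2⟩
    have hdec : Dec G H code K X ψ 0 (s.x ++ s.l ++ s.y) (Zx ++ B ++ Zy) := by
      refine ((k3.shift 0 fun i hi => (hs1 _ (by omega)).symm).append (by simpa using b1)).append
        (k2.shift _ fun i _ => ?_)
      simp only [List.length_append, Nat.zero_add]
      exact (hs2 i).symm
    have ih := sim_back hi hT hX D _ ψ _ hD hdec f1' f2' (by rw [hs1 0 (by omega), e0]) (by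
      simp only [List.length_append] at e1 ⊢
      rw [hs2, e1])
    obtain ⟨c1, -, c3, c4⟩ := b1.facts
    obtain ⟨d1, d2, d3, d4⟩ := k4.facts
    have e2 := hs2 0
    simp only [Nat.add_zero] at e2
    rw [e2, hs1 _ le_rfl] at c3 c4
    rw [Nat.zero_add] at d3 d4
    refine ih.tail ⟨vis Zx, vis Zy, (vis B, vis Zr), (Set.Finite.mem_toFinset _).2
      ⟨⟨_, hp, c1, d1⟩, B, Zr, _, _, rfl, rfl, b2, b3, d2, c3, d3, c4.trans d4.symm⟩,
      by simp, by simp⟩

theorem dec_bottom {os : List (Option ℕ)} {ψ : ℕ → Pos} {K₀ : ℕ}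
    (hψ : ∀ s (hs : s < os.length), OKs H X K₀ (ψ s) os[s] (ψ (s + 1))) {σ : ℕ → ℕ}
    (h1 : ∀ m, σ (m + 1) = σ m ∨ σ (m + 1) = σ m + 1) (h2 : ∀ m, σ m ≤ os.length) :
    ∀ (z : List ℕ) (m : ℕ), (∀ a ∈ z, a ∈ G.T) → σ (m + z.length) = os.length →
      ∃ Z, Dec G H code K X (fun g => (inl (ψ (σ g)).1, (ψ (σ g)).2)) m z Z ∧
        vis Z = (os.drop (σ m)).filterMap id
  | [], m, _, h => ⟨[], Dec.nil m, by simp at h; simp [h]⟩
  | s :: z, m, hz, h => by
    obtain ⟨Z, k1, k2⟩ := dec_bottom hψ h1 h2 z (m + 1) (fun a ha => hz a (by simp [ha]))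
      (by rwa [List.length_cons, show m + (z.length + 1) = m + 1 + z.length by omega] at h)
    have hs := hz s (by simp)
    rcases h1 m with e | e
    · refine ⟨⟨inl (ψ (σ m)).1, inl (ψ (σ m)).1, 1, none⟩ :: Z, Dec.cons ⟨rfl, by simp [e],
        by simp [e], Or.inr ⟨_, _, rfl, rfl, Tr.stay _⟩,
        (mem_muF G H code K).2 (Or.inl ⟨hs, Or.inl rfl⟩), fun h => absurd hs h⟩ k1, ?_⟩
      rw [vis_cons, k2, e]
      rfl
    · have hm : σ m < os.length := by have := h2 (m + 1); omega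
      have ht := (hψ _ hm).tr
      refine ⟨⟨inl (ψ (σ m)).1, inl (ψ (σ m + 1)).1,
        (gv X (ψ (σ m)).2)⁻¹ * gv X (ψ (σ m + 1)).2, os[σ m]⟩ :: Z, Dec.cons ⟨rfl, by simp [e],
        by simp [e], Or.inr ⟨_, _, rfl, rfl, ht⟩,
        (mem_muF G H code K).2 (Or.inl ⟨hs, ?_⟩), fun h => absurd hs h⟩ k1, ?_⟩
      · cases e' : os[σ m] with
        | none => exact Or.inl rfl
        | some a =>
          rw [e'] at ht
          exact Or.inr ⟨a, ht.mem, rfl⟩
      · rw [vis_cons, k2, e, List.drop_eq_getElem_cons hm, List.filterMap_cons]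
        cases os[σ m] <;> rfl

end Complete

theorem lip_of_steps {P : ℕ → ℕ} {n K : ℕ}
    (h : ∀ s < n, P s ≤ P (s + 1) + K ∧ P (s + 1) ≤ P s + K) :
    ∀ d s, s + d ≤ n → P s ≤ P (s + d) + K * d ∧ P (s + d) ≤ P s + K * d
  | 0, s, _ => by simp
  | d + 1, s, hs => by
    have h1 := lip_of_steps h d s (by omega)
    have h2 := h (s + d) (by omega)
    rw [← Nat.add_assoc, Nat.mul_succ]
    omega

theorem lip_bottom {P σ : ℕ → ℕ} {n K : ℕ} {c : ℕ → ℕ → ℕ}
    (h : ∀ s < n, P s ≤ P (s + 1) + K ∧ P (s + 1) ≤ P s + K) (h0 : P 0 = 0) (hn : P n = 0)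
    (h2 : ∀ m, σ m ≤ n) (h3 : ∀ i j, (σ i ≤ σ j + c i j ∧ σ j ≤ σ i + c i j) ∨
      σ i ≤ 2 * c i j ∨ n ≤ σ i + 2 * c i j) (i j : ℕ) :
    P (σ i) ≤ P (σ j) + 2 * K * c i j := by
  have e : 2 * K * c i j = K * (2 * c i j) := by ring
  rw [e]
  rcases h3 i j with ⟨a1, a2⟩ | a | a
  · rcases le_total (σ i) (σ j) with hh | hh
    · obtain ⟨d, hd⟩ := Nat.exists_eq_add_of_le hh
      have := (lip_of_steps h d (σ i) (by have := h2 j; omega)).1
      rw [← hd] at this
      have := Nat.mul_le_mul_left K (show d ≤ 2 * c i j by omega)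
      omega
    · obtain ⟨d, hd⟩ := Nat.exists_eq_add_of_le hh
      have := (lip_of_steps h d (σ j) (by have := h2 i; omega)).2
      rw [← hd] at this
      have := Nat.mul_le_mul_left K (show d ≤ 2 * c i j by omega)
      omega
  · have := (lip_of_steps h (σ i) 0 (by have := h2 i; omega)).2
    rw [Nat.zero_add] at this
    have := Nat.mul_le_mul_left K a
    omega
  · obtain ⟨d, hd⟩ := Nat.exists_eq_add_of_le (h2 i)
    have := (lip_of_steps h d (σ i) (by omega)).1
    rw [← hd] at this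
    have := Nat.mul_le_mul_left K (show d ≤ 2 * c i j by omega)
    omega

/-- A grammar that is thin for no bound interprets every grammar language. -/
theorem thick_sim {G : Grammar} (hG : ∀ K, 1 ≤ K → ¬ Thin G K) (H : Grammar) : H.lang ∈ gFamily G := by
  obtain ⟨K₀, hK₀⟩ := auto_complete H
  obtain ⟨enc, henc⟩ := Countable.exists_injective_nat Sym
  set code : Sym → ℕ := fun σ => enc σ + (H.T.sup id + 1) with hcode
  have hi : Function.Injective code := fun a b h => henc (Nat.add_right_cancel h)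
  have hT : ∀ σ, code σ ∉ H.T := fun σ h => by
    have : code σ ≤ H.T.sup id := Finset.le_sup (f := id) h
    simp only [hcode] at this
    omega
  refine ⟨simG G H code (2 * K₀) hi hT, _, simG_interp hi hT,
    Set.Subset.antisymm ?_ (sim_sound hi hT)⟩
  intro w hw
  obtain ⟨X, os, hX, hp, rfl⟩ := hK₀ w hw
  obtain ⟨ψ, p0, p1, p2⟩ := hp.fn
  have := hG (2 * os.length + 1) (by omega)
  unfold Thin at this
  push Not at this
  obtain ⟨D, z, hD, hz, a, b, h1, h2, h3, h4⟩ := this
  obtain ⟨σ, s0, s1, s2, s3, s4⟩ := thick_arc D (n := os.length) h1 h3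
    (fun m m1 m2 => by have := h4 m m1 m2; omega) (by omega)
  obtain ⟨Z, k1, k2⟩ := dec_bottom (G := G) (code := code) (K := 2 * K₀) p2 s2 s3 z 0 hz
    (s1 _ (by omega))
  have := sim_back hi hT hX D z _ Z hD k1
    (lip_bottom (P := fun s => (ψ s).2.1) (fun s hs => ⟨(p2 s hs).c1, (p2 s hs).c2⟩)
      (by simp [p0]) (by simp [p1]) s3 s4)
    (lip_bottom (P := fun s => (ψ s).2.2) (fun s hs => ⟨(p2 s hs).c3, (p2 s hs).c4⟩)
      (by simp [p0]) (by simp [p1]) s3 s4)
    (by simp [s0, p0]) (by simp [s1 _ h2, p1])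
  rw [k2, s0, List.drop_zero] at this
  exact ⟨fun a ha => Finset.mem_union_left _ (hw.1 a ha), this⟩

theorem subst_comp [DecidableEq (List ℕ)] {μ ν : ℕ → Finset (List ℕ)} {u v : List ℕ}
    (h : Subst μ u v) : ∀ w, Subst ν v w →
      Subst (fun a => (μ a).biUnion fun b => (subst_finite ν b).toFinset) u w := by
  have split : ∀ (b v w : List ℕ), Subst ν (b ++ v) w →
      ∃ w₁ w₂, w = w₁ ++ w₂ ∧ Subst ν b w₁ ∧ Subst ν v w₂ := by
    intro b
    induction b with
    | nil => exact fun v w h => ⟨[], w, rfl, Subst.nil, h⟩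
    | cons a b ih =>
      intro v w h
      rw [List.cons_append] at h
      cases h with
      | cons hb h =>
        obtain ⟨w₁, w₂, rfl, h1, h2⟩ := ih _ _ h
        exact ⟨_, w₂, by simp, Subst.cons hb h1, h2⟩
  induction h with
  | nil => intro w hw; cases hw; exact Subst.nil
  | cons hb _ ih =>
    intro w hw
    obtain ⟨w₁, w₂, rfl, h1, h2⟩ := split _ _ _ hw
    exact Subst.cons (Finset.mem_biUnion.2 ⟨_, hb, (Set.Finite.mem_toFinset _).2 h1⟩) (ih _ h2)

theorem subst_single {ν : ℕ → Finset (List ℕ)} {B : ℕ} {w : List ℕ} :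
    Subst ν [B] w ↔ w ∈ ν B := by
  constructor
  · intro h
    cases h with
    | cons hb h => cases h; simpa using hb
  · intro h
    simpa using Subst.cons h Subst.nil

theorem interp_trans {G₁ G₂ G₃ : Grammar} {μ ν : ℕ → Finset (List ℕ)} (h₁ : InterpVia G₁ G₂ ν)
    (h₂ : InterpVia G₂ G₃ μ) :
    InterpVia G₁ G₃ fun a => (μ a).biUnion fun b => (subst_finite ν b).toFinset where
  term := by
    intro a ha w hw c hc
    obtain ⟨b, hb, hw⟩ := Finset.mem_biUnion.1 hw
    obtain ⟨a', k1, b', k2, k3⟩ := subst_mem ((Set.Finite.mem_toFinset _).1 hw) c hc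
    exact h₁.term a' (h₂.term a ha b hb a' k1) b' k2 c k3
  nonterm := by
    intro A hA hA' w hw
    obtain ⟨b, hb, hw⟩ := Finset.mem_biUnion.1 hw
    obtain ⟨B, rfl, k1, k2⟩ := h₂.nonterm A hA hA' b hb
    exact h₁.nonterm B k1 k2 w (subst_single.1 ((Set.Finite.mem_toFinset _).1 hw))
  disj := by
    intro A hA hA' A₂ hA₂ hA₂' hne
    rw [Finset.disjoint_left]
    intro w hw hw₂
    obtain ⟨b, hb, hw⟩ := Finset.mem_biUnion.1 hw
    obtain ⟨b₂, hb₂, hw₂⟩ := Finset.mem_biUnion.1 hw₂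
    obtain ⟨B, rfl, k1, k2⟩ := h₂.nonterm A hA hA' b hb
    obtain ⟨B₂, rfl, m1, m2⟩ := h₂.nonterm A₂ hA₂ hA₂' b₂ hb₂
    have hB : B ≠ B₂ := by
      rintro rfl
      exact Finset.disjoint_left.1 (h₂.disj A hA hA' A₂ hA₂ hA₂' hne) hb hb₂
    exact Finset.disjoint_left.1 (h₁.disj B k1 k2 B₂ m1 m2 hB)
      (subst_single.1 ((Set.Finite.mem_toFinset _).1 hw))
      (subst_single.1 ((Set.Finite.mem_toFinset _).1 hw₂))
  prods := by
    intro p hp
    obtain ⟨q, hq, k1, k2⟩ := h₁.prods p hp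
    obtain ⟨r, hr, m1, m2⟩ := h₂.prods q hq
    exact ⟨r, hr, subst_comp m1 _ k1, subst_comp m2 _ k2⟩
  start := Finset.mem_biUnion.2 ⟨_, h₂.start,
    (Set.Finite.mem_toFinset _).2 (subst_single.2 h₁.start)⟩

/-- If some interpretation generates a language that is not context-free, all grammar
languages are generated by interpretations. -/
theorem gap_grammar {G : Grammar} (h : ¬ FamLE (gFamily G) cfFamily) (H : Grammar) :
    H.lang ∈ gFamily G := by
  unfold FamLE at h
  push Not at h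
  obtain ⟨L, ⟨G₀, μ, h₀, rfl⟩, hL⟩ := h
  have : ∀ K, 1 ≤ K → ¬ Thin G₀ K := by
    intro K h1 hK
    obtain ⟨G', c1, c2⟩ := thin_cf h1 hK
    exact hL _ ⟨G', c1, rfl⟩ c2
  obtain ⟨G₁, ν, h₁, e⟩ := thick_sim this H
  exact ⟨G₁, _, interp_trans h₁ h₀, e⟩

end Pool.Agent.MP_c20a26_lc
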