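import Pool.Agent.MP_c20a26_lc.Canon

set_option autoImplicit false

namespace Pool.Agent.MP_c20a26_lc

open Sum

theorem finite_lists {α : Type} {s : Set α} (hs : s.Finite) :
    ∀ n : ℕ, {l : List α | l.length ≤ n ∧ ∀ a ∈ l, a ∈ s}.Finite
  | 0 => (Set.finite_singleton []).subset fun l hl =>
      List.length_eq_zero_iff.1 (Nat.le_zero.1 hl.1)
  | n + 1 => by
    refine ((Set.finite_singleton []).union
      ((hs.prod (finite_lists hs n)).image fun p => p.1 :: p.2)).subset fun l hl => ?_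
    cases l with
    | nil => exact Or.inl rfl
    | cons a l =>
      exact Or.inr ⟨(a, l), ⟨hl.2 a (by simp), by simpa using hl.1,
        fun b hb => hl.2 b (by simp [hb])⟩, rfl⟩

theorem der_ctx {G : Grammar} {u v : List ℕ} (h : Relation.ReflTransGen G.Step u v)
    (x y : List ℕ) : Relation.ReflTransGen G.Step (x ++ u ++ y) (x ++ v ++ y) := by
  induction h with
  | refl => exact Relation.ReflTransGen.refl
  | tail _ hs ih =>
    obtain ⟨x', y', p, hp, rfl, rfl⟩ := hs
    exact ih.tail ⟨x ++ x', y' ++ y, p, hp, by simp, by simp⟩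

theorem der_rule {G : Grammar} {l r : List ℕ} (h : (l, r) ∈ G.P) :
    Relation.ReflTransGen G.Step l r :=
  Relation.ReflTransGen.single ⟨[], [], (l, r), h, by simp, by simp⟩

/-- Substitution by arbitrary languages. -/
inductive SubS (σ : ℕ → Set (List ℕ)) : List ℕ → List ℕ → Prop
  | nil : SubS σ [] []
  | cons {a : ℕ} {u b v : List ℕ} : b ∈ σ a → SubS σ u v → SubS σ (a :: u) (b ++ v)

theorem SubS.append {σ : ℕ → Set (List ℕ)} {u v u' v' : List ℕ} (h : SubS σ u v)
    (h' : SubS σ u' v') : SubS σ (u ++ u') (v ++ v') := by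
  induction h with
  | nil => exact h'
  | cons hb _ ih => rw [List.append_assoc]; exact SubS.cons hb ih

theorem SubS.split {σ : ℕ → Set (List ℕ)} : ∀ (u u' w : List ℕ), SubS σ (u ++ u') w →
    ∃ v v', w = v ++ v' ∧ SubS σ u v ∧ SubS σ u' v'
  | [], u', w, h => ⟨[], w, rfl, SubS.nil, h⟩
  | a :: u, u', w, h => by
    rw [List.cons_append] at h
    cases h with
    | cons hb h =>
      obtain ⟨v, v', rfl, h1, h2⟩ := SubS.split u u' _ h
      exact ⟨_, v', by simp, SubS.cons hb h1, h2⟩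

theorem SubS.single {σ : ℕ → Set (List ℕ)} {a : ℕ} {w : List ℕ} : SubS σ [a] w ↔ w ∈ σ a := by
  constructor
  · intro h
    cases h with
    | cons hb h => cases h; simpa using hb
  · intro h
    simpa using SubS.cons h SubS.nil

theorem cf_criterion (T : Finset ℕ) {ι : Type} (I : Set ι) (hI : I.Finite)
    (O : ι → Set (List ℕ)) (L : Set (List ℕ)) (Good : ι → List ℕ → Prop)
    (hL : ∀ w ∈ L, ∀ a ∈ w, a ∈ T)
    (hG : ∀ i w, Good i w → i ∈ I ∧ w ∈ O i ∧ w ≠ [] ∧ ∀ a ∈ w, a ∈ T)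
    (hsplit : ∀ i w, Good i w → 2 ≤ w.length → ∃ i₁ w₁ i₂ w₂, w = w₁ ++ w₂ ∧ Good i₁ w₁ ∧
      Good i₂ w₂ ∧ ∀ v₁ ∈ O i₁, ∀ v₂ ∈ O i₂, v₁ ++ v₂ ∈ O i)
    (htop : ∀ w ∈ L, w ≠ [] → ∃ i, Good i w ∧ O i ⊆ L) :
    ∃ G : Grammar, G.IsCF ∧ L \ {[]} = G.lang \ {[]} := by
  classical
  obtain ⟨f, hf⟩ := Set.countable_iff_exists_injOn.1 hI.countable
  set B := T.sup id + 1 with hB
  have hT : ∀ a ∈ T, a < B := fun a ha => Nat.lt_succ_of_le (Finset.le_sup (f := id) ha)
  set N : ι → ℕ := fun i => B + 1 + f i with hN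
  have hNT : ∀ i, N i ∉ T := fun i h => by have := hT _ h; simp only [hN] at this; omega
  have hBT : B ∉ T := fun h => lt_irrefl _ (hT _ h)
  set V : Finset ℕ := insert B (T ∪ hI.toFinset.image N) with hV
  have hNV : ∀ i ∈ I, N i ∈ V := fun i hi =>
    Finset.mem_insert_of_mem (Finset.mem_union_right _
      (Finset.mem_image_of_mem _ (hI.mem_toFinset.2 hi)))
  have hTV : T ⊆ V := fun a ha => Finset.mem_insert_of_mem (Finset.mem_union_left _ ha)
  have hBV : B ∈ V := Finset.mem_insert_self _ _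
  set P : Set (List ℕ × List ℕ) := {p | (∃ i ∈ I, O i ⊆ L ∧ p = ([B], [N i])) ∨
    (∃ i ∈ I, ∃ i₁ ∈ I, ∃ i₂ ∈ I, (∀ v₁ ∈ O i₁, ∀ v₂ ∈ O i₂, v₁ ++ v₂ ∈ O i) ∧
      p = ([N i], [N i₁, N i₂])) ∨ ∃ i ∈ I, ∃ a ∈ T, [a] ∈ O i ∧ p = ([N i], [a])} with hP
  have hP1 : ∀ p ∈ P, (p.1.length ≤ 2 ∧ ∀ a ∈ p.1, a ∈ (V : Set ℕ)) ∧
      (p.2.length ≤ 2 ∧ ∀ a ∈ p.2, a ∈ (V : Set ℕ)) ∧ ∃ A, A ∉ T ∧ p.1 = [A] := by
    rintro p (⟨i, hi, -, rfl⟩ | ⟨i, hi, i₁, h₁, i₂, h₂, -, rfl⟩ | ⟨i, hi, a, ha, -, rfl⟩)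
    · exact ⟨⟨by simp, by simpa using hBV⟩, ⟨by simp, by simpa using hNV i hi⟩, B, hBT, rfl⟩
    · exact ⟨⟨by simp, by simpa using hNV i hi⟩, ⟨by simp, by simpa using ⟨hNV _ h₁, hNV _ h₂⟩⟩,
        _, hNT i, rfl⟩
    · exact ⟨⟨by simp, by simpa using hNV i hi⟩, ⟨by simp, by simpa using hTV ha⟩, _, hNT i, rfl⟩
  have hPf : P.Finite := ((finite_lists V.finite_toSet 2).prod
    (finite_lists V.finite_toSet 2)).subset fun p hp => ⟨(hP1 p hp).1, (hP1 p hp).2.1⟩
  let G : Grammar :=
    { V := V, T := T, P := hPf.toFinset, S := B, T_sub := hTV, S_mem := hBV, S_not := hBT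
      lhs_mem := fun p hp => (hP1 p (hPf.mem_toFinset.1 hp)).1.2
      rhs_mem := fun p hp => (hP1 p (hPf.mem_toFinset.1 hp)).2.1.2
      lhs_nt := fun p hp => by
        obtain ⟨A, hA, e⟩ := (hP1 p (hPf.mem_toFinset.1 hp)).2.2
        exact ⟨A, by simp [e], hA⟩ }
  refine ⟨G, fun p hp => (hP1 p (hPf.mem_toFinset.1 hp)).2.2, ?_⟩
  have hcomp : ∀ n i w, w.length ≤ n → Good i w → Relation.ReflTransGen G.Step [N i] w := by
    intro n
    induction n with
    | zero =>
      intro i w hw hg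
      exact absurd (List.length_eq_zero_iff.1 (by omega)) (hG i w hg).2.2.1
    | succ n ih =>
      intro i w hw hg
      obtain ⟨hi, hO, hne, hw'⟩ := hG i w hg
      by_cases h2 : 2 ≤ w.length
      · obtain ⟨i₁, w₁, i₂, w₂, rfl, g1, g2, hh⟩ := hsplit i w hg h2
        have l1 := List.length_pos_iff.2 (hG _ _ g1).2.2.1
        have l2 := List.length_pos_iff.2 (hG _ _ g2).2.2.1
        rw [List.length_append] at hw
        have s0 : Relation.ReflTransGen G.Step [N i] [N i₁, N i₂] :=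
          der_rule (hPf.mem_toFinset.2
            (Or.inr (Or.inl ⟨i, hi, i₁, (hG _ _ g1).1, i₂, (hG _ _ g2).1, hh, rfl⟩)))
        have s1 := der_ctx (ih i₁ w₁ (by omega) g1) [] [N i₂]
        have s2 := der_ctx (ih i₂ w₂ (by omega) g2) w₁ []
        simp only [List.nil_append, List.append_nil] at s1 s2
        exact (s0.trans s1).trans s2
      · have := List.length_pos_iff.2 hne
        obtain ⟨a, rfl⟩ := List.length_eq_one_iff.1 (show w.length = 1 by omega)
        exact der_rule (hPf.mem_toFinset.2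
          (Or.inr (Or.inr ⟨i, hi, a, hw' a (by simp), hO, rfl⟩)))
  set σ : ℕ → Set (List ℕ) := fun a =>
    if a ∈ T then {[a]} else if a = B then L else {w | ∃ i ∈ I, N i = a ∧ w ∈ O i} with hσ
  have σN : ∀ i ∈ I, σ (N i) = O i := by
    intro i hi
    simp only [hσ]
    rw [if_neg (hNT i), if_neg (by simp only [hN]; omega)]
    ext w
    constructor
    · rintro ⟨i', hi', e, hw⟩
      have : i' = i := hf hi' hi (by simp only [hN] at e; omega)
      rwa [this] at hw
    · exact fun hw => ⟨i, hi, rfl, hw⟩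
  have σB : σ B = L := by simp [hσ, hBT]
  have σT : ∀ a ∈ T, σ a = {[a]} := fun a ha => by simp [hσ, ha]
  have hsound : ∀ u v, Relation.ReflTransGen G.Step u v → ∀ w, SubS σ v w → SubS σ u w := by
    intro u v h
    induction h with
    | refl => exact fun w hw => hw
    | tail _ hs ih =>
      obtain ⟨x, y, p, hp, rfl, rfl⟩ := hs
      intro w hw
      obtain ⟨v, v', rfl, h1, h2⟩ := SubS.split _ _ _ hw
      obtain ⟨v₀, v₁, rfl, h3, h4⟩ := SubS.split _ _ _ h1
      refine ih _ ((h3.append ?_).append h2)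
      rcases hPf.mem_toFinset.1 hp with
        ⟨i, hi, hO, rfl⟩ | ⟨i, hi, i₁, h₁, i₂, h₂, hh, rfl⟩ | ⟨i, hi, a, ha, hO, rfl⟩
      · rw [SubS.single, σN i hi] at h4
        rw [SubS.single, σB]
        exact hO h4
      · obtain ⟨a, b, rfl, k1, k2⟩ := SubS.split [N i₁] [N i₂] _ h4
        rw [SubS.single, σN _ h₁] at k1
        rw [SubS.single, σN _ h₂] at k2
        rw [SubS.single, σN _ hi]
        exact hh _ k1 _ k2
      · rw [SubS.single, σT a ha] at h4
        rw [SubS.single, σN _ hi, Set.mem_singleton_iff.1 h4]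
        exact hO
  have hself : ∀ w : List ℕ, (∀ a ∈ w, a ∈ T) → SubS σ w w := by
    intro w
    induction w with
    | nil => exact fun _ => SubS.nil
    | cons a w ih =>
      intro h
      exact SubS.cons (b := [a]) (by rw [σT a (h a (by simp))]; rfl)
        (ih fun b hb => h b (by simp [hb]))
  ext w
  constructor
  · rintro ⟨hw, hne⟩
    obtain ⟨i, hg, hO⟩ := htop w hw hne
    refine ⟨⟨hL w hw, ?_⟩, hne⟩
    exact (der_rule (G := G) (hPf.mem_toFinset.2 (Or.inl ⟨i, (hG _ _ hg).1, hO, rfl⟩))).trans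
      (hcomp _ i w le_rfl hg)
  · rintro ⟨⟨hw, hd⟩, hne⟩
    have := hsound _ _ hd w (hself w hw)
    rw [SubS.single] at this
    exact ⟨by rwa [show G.S = B from rfl, σB] at this, hne⟩

/-- All short chords can be split. -/
def Thin (G : Grammar) (K : ℕ) : Prop :=
  ∀ D w, Valid G D w → (∀ a ∈ w, a ∈ G.T) → ∀ a b, a + 2 ≤ b → b ≤ w.length → cd D a b ≤ K →
    ∃ m, a < m ∧ m < b ∧ cd D a m ≤ K ∧ cd D m b ≤ K

def RR (G : Grammar) (l r : List ℕ) : Prop :=
  (l, r) ∈ G.P ∨ (l = [] ∧ r = []) ∨ (l = [G.S] ∧ r = [G.S])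

def dB (c : Bool) (_ : Unit) (c' : Bool) : Prop := c' = !c

theorem walk_wkB (c c' : Bool) : Walk dB c (wkB c c') c' := by
  cases c <;> cases c'
  · exact Walk.nil _
  · exact Walk.cons rfl (Walk.nil _)
  · exact Walk.cons rfl (Walk.nil _)
  · exact Walk.nil _

theorem tokw_iv (u w v : List ℕ) (hw : w ≠ []) :
    tokw wkB false (iv u.length (u.length + w.length)) false 0 (u ++ w ++ v) =
      sy u ++ inr () :: (sy w ++ inr () :: sy v) := by
  have h0 : ∀ c, wkB c c = [] := fun c => if_pos rfl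
  rw [List.append_assoc, tokw_same h0 false _ u 0 (by
      intro i hi; simp only [iv]; rw [decide_eq_false, decide_eq_false] <;> first | rfl | omega),
    tokw_block h0 false true w v _ hw (by
      intro i hi; simp only [iv]; rw [decide_eq_true, decide_eq_false] <;> first | rfl | omega),
    tokw_last h0 true v _ (by
      intro i hi; simp only [iv]; rw [decide_eq_true, decide_eq_true] <;> first | rfl | omega)]
  simp [wkB]

def nx4 : Fin 4 → Fin 3 → Option (Fin 4) :=
  ![![some 1, none, none], ![some 0, some 2, some 3], ![none, some 1, none], ![none, none, some 1]]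

def wk4 : Fin 4 → Fin 4 → List (Fin 3) :=
  ![![[], [0], [0, 1], [0, 2]], ![[0], [], [1], [2]], ![[1, 0], [1], [], [1, 2]],
    ![[2, 0], [2], [2, 1], []]]

def d4 (c : Fin 4) (t : Fin 3) (c' : Fin 4) : Prop := nx4 c t = some c'

theorem walk_of_fold : ∀ (T : List (Fin 3)) (c c' : Fin 4), T.foldlM nx4 c = some c' →
    Walk d4 c T c'
  | [], c, c', h => by
    have : c = c' := by simpa using h
    rw [this]
    exact Walk.nil _
  | t :: T, c, c', h => by
    rw [List.foldlM_cons] at h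
    cases e : nx4 c t with
    | none => simp [e] at h
    | some c₁ =>
      rw [e] at h
      exact Walk.cons e (walk_of_fold T c₁ c' h)

theorem walk_wk4 (c c' : Fin 4) : Walk d4 c (wk4 c c') c' :=
  walk_of_fold _ _ _ (by revert c c'; decide)

def col (a b c : Bool) : Fin 4 := if a then 2 else if b then 3 else if c then 1 else 0

def p0 (c : Fin 4) : Bool := decide (c ≠ 0)
def p1 (c : Fin 4) : Bool := decide (c = 2)
def p2 (c : Fin 4) : Bool := decide (c = 3)

theorem uncross (D : List St) {a m b : ℕ} (h1 : a ≤ m) (h2 : m ≤ b) (χ : ℕ → Bool)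
    (hχ : cost D χ (iv a b) = cd D a b) :
    ∃ χ₁ χ₂ : ℕ → Bool, cost D χ₁ (iv a m) = cd D a m ∧ cost D χ₂ (iv m b) = cd D m b ∧
      ∀ t, (χ₁ t = true → χ t = true) ∧ (χ₂ t = true → χ t = true) ∧
        (χ₁ t = true → χ₂ t = false) := by
  obtain ⟨φ, hφ⟩ := mu_ex D (iv a m)
  obtain ⟨ψ, hψ⟩ := mu_ex D (iv m b)
  have k1 := cost_op and or rfl rfl (by decide) D φ χ (iv a m) (iv a b)
  have k2 := cost_op and or rfl rfl (by decide) D ψ χ (iv m b) (iv a b)
  have k3 := cost_op (fun u v => u && !v) (fun u v => v && !u) rfl rfl (by decide) D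
    (fun p => φ p && χ p) (fun p => ψ p && χ p) (iv a m) (iv m b)
  have e1 : (fun p => iv a m p && iv a b p) = iv a m := by
    funext p
    simp only [iv]
    by_cases a ≤ p <;> by_cases b ≤ p <;> by_cases m ≤ p <;> simp [*] <;> omega
  have e2 : (fun p => iv a m p || iv a b p) = iv a b := by
    funext p
    simp only [iv]
    by_cases a ≤ p <;> by_cases b ≤ p <;> by_cases m ≤ p <;> simp [*] <;> omega
  have e3 : (fun p => iv m b p && iv a b p) = iv m b := by
    funext p
    simp only [iv]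
    by_cases a ≤ p <;> by_cases b ≤ p <;> by_cases m ≤ p <;> simp [*] <;> omega
  have e4 : (fun p => iv m b p || iv a b p) = iv a b := by
    funext p
    simp only [iv]
    by_cases a ≤ p <;> by_cases b ≤ p <;> by_cases m ≤ p <;> simp [*] <;> omega
  have e5 : (fun p => iv a m p && !iv m b p) = iv a m := by
    funext p
    simp only [iv]
    by_cases a ≤ p <;> by_cases b ≤ p <;> by_cases m ≤ p <;> simp [*] <;> omega
  have e6 : (fun p => iv m b p && !iv a m p) = iv m b := by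
    funext p
    simp only [iv]
    by_cases a ≤ p <;> by_cases b ≤ p <;> by_cases m ≤ p <;> simp [*] <;> omega
  rw [e1, e2] at k1
  rw [e3, e4] at k2
  rw [e5, e6] at k3
  have m1 := mu_le D (fun p => φ p || χ p) (iv a b)
  have m2 := mu_le D (fun p => ψ p || χ p) (iv a b)
  have m3 := mu_le D (fun p => (φ p && χ p) && !(ψ p && χ p)) (iv a m)
  have m4 := mu_le D (fun p => (ψ p && χ p) && !(φ p && χ p)) (iv m b)
  unfold cd at hχ ⊢
  refine ⟨fun p => (φ p && χ p) && !(ψ p && χ p), fun p => (ψ p && χ p) && !(φ p && χ p),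
    by omega, by omega, fun t => ?_⟩
  beta_reduce
  cases φ t <;> cases ψ t <;> cases χ t <;> simp

theorem thin_cf {G : Grammar} {K : ℕ} (hK : 1 ≤ K) (h : Thin G K) :
    ∃ G' : Grammar, G'.IsCF ∧ G.lang \ {[]} = G'.lang \ {[]} := by
  classical
  have hS : RR G [G.S] [G.S] := Or.inr (Or.inr ⟨rfl, rfl⟩)
  have hR : RR G [] [] := Or.inr (Or.inl ⟨rfl, rfl⟩)
  have hP : ∀ l r, (l, r) ∈ G.P → RR G l r := fun l r h => Or.inl h
  set M := G.P.sup (fun p => p.1.length + p.2.length) + 1 with hM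
  have hRM : ∀ l r, RR G l r → (l.length ≤ M ∧ ∀ a ∈ l, a ∈ G.V) ∧
      (r.length ≤ M ∧ ∀ a ∈ r, a ∈ G.V) := by
    rintro l r (h | ⟨rfl, rfl⟩ | ⟨rfl, rfl⟩)
    · have : l.length + r.length ≤ G.P.sup (fun p => p.1.length + p.2.length) :=
        Finset.le_sup (f := fun p : List ℕ × List ℕ => p.1.length + p.2.length) h
      exact ⟨⟨by omega, G.lhs_mem _ h⟩, by omega, G.rhs_mem _ h⟩
    · simp
    · exact ⟨⟨by simp [hM], by simpa using G.S_mem⟩, by simp [hM], by simpa using G.S_mem⟩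
  set n := 3 * K + 2 with hn
  set Sy : Set (ℕ ⊕ Unit) := insert (inr ()) (inl '' (G.V : Set ℕ)) with hSy
  have hSyf : Sy.Finite := (G.V.finite_toSet.image _).insert _
  set Wd : Set (TW Unit) := {l | l.length ≤ M + n ∧ ∀ a ∈ l, a ∈ Sy} with hWd
  have hWdf : Wd.Finite := finite_lists hSyf _
  have hWdm : ∀ l : TW Unit, (er l).length ≤ M → (tk l).length ≤ n → (∀ a ∈ er l, a ∈ G.V) →
      l ∈ Wd := by
    intro l h1 h2 h3
    refine ⟨by rw [length_er_tk]; omega, fun a ha => ?_⟩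
    cases a with
    | inr t => exact Or.inl rfl
    | inl a => exact Or.inr ⟨a, h3 a (List.mem_filterMap.2 ⟨_, ha, rfl⟩), rfl⟩
  set Lb : Set (Lab Unit) := {T | T.length ≤ n ∧ ∀ a ∈ T, a ∈ Set.univ} ×ˢ Wd ×ˢ Wd with hLb
  have hLbf : Lb.Finite := (finite_lists Set.finite_univ _).prod (hWdf.prod hWdf)
  refine cf_criterion G.T {τ | τ.length ≤ n ∧ ∀ e ∈ τ, e ∈ Lb} (finite_lists hLbf _)
    (fun τ => {w | (∀ a ∈ w, a ∈ G.T) ∧ ∃ u v, Run (RR G) [inl G.S] τ
      (sy u ++ inr () :: (sy w ++ inr () :: sy v))}) G.lang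
    (fun τ w => ∃ D u v χ, Valid G D (u ++ w ++ v) ∧ (∀ a ∈ u ++ w ++ v, a ∈ G.T) ∧ w ≠ [] ∧
      cost D χ (iv u.length (u.length + w.length)) = cd D u.length (u.length + w.length) ∧
      cd D u.length (u.length + w.length) ≤ K ∧
      τ = ftr wkB false G.S χ D (iv u.length (u.length + w.length)) (u ++ w ++ v))
    (fun w hw => hw.1) ?_ ?_ ?_
  · rintro τ w ⟨D, u, v, χ, hD, hT, hne, hχ, hK', rfl⟩
    obtain ⟨r1, -⟩ := ftr_spec false walk_wkB hS hR hP χ (iv u.length (u.length + w.length)) hD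
    have hw : ∀ a ∈ w, a ∈ G.T := fun a ha => hT a (by simp [ha])
    obtain ⟨b1, b2⟩ := canon_bound G.S χ D (iv u.length (u.length + w.length))
    obtain ⟨b3, b4⟩ := ctr_bound wkB false (iv u.length (u.length + w.length)) (u ++ w ++ v) []
      false 0 (canon wkB false G.S χ D (iv u.length (u.length + w.length))).1
    have hr := r1.lab_rule
    rw [tokw_iv u w v hne] at r1 b3 b4
    simp only [tk_append, tk_sy, tk_inr, List.nil_append, List.length_cons, List.length_nil]
      at b3 b4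
    refine ⟨⟨by simp only [ftr, List.length_append]; omega, fun e he => ?_⟩, ⟨hw, u, v, r1⟩,
      hne, hw⟩
    have hs : Small n e := by
      rcases List.mem_append.1 he with he | he
      · exact (b2 e he).mono (by omega)
      · exact (b4 e he).mono (by omega)
    obtain ⟨q1, q2⟩ := hRM _ _ (hr e he)
    exact ⟨⟨hs.1, by simp⟩, hWdm _ q1.1 hs.2.1 q1.2, hWdm _ q2.1 hs.2.2 q2.2⟩
  · rintro τ w ⟨D, u, v, χ, hD, hT, hne, hχ, hK', rfl⟩ h2
    obtain ⟨m, m1, m2, m3, m4⟩ := h D _ hD hT u.length (u.length + w.length) (by omega)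
      (by simp) hK'
    obtain ⟨w₁, w₂, rfl, rfl⟩ : ∃ w₁ w₂, w = w₁ ++ w₂ ∧ m = u.length + w₁.length :=
      ⟨w.take (m - u.length), w.drop (m - u.length), by simp, by simp; omega⟩
    have n1 : w₁ ≠ [] := by intro e; simp [e] at m1
    have n2 : w₂ ≠ [] := by intro e; simp [e] at m2
    obtain ⟨χ₁, χ₂, c1, c2, c3⟩ := uncross D m1.le m2.le χ hχ
    have eb : u.length + (w₁ ++ w₂).length = (u ++ w₁).length + w₂.length := by simp; omega
    have ea : u.length + w₁.length = (u ++ w₁).length := by simp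
    refine ⟨_, w₁, _, w₂, rfl,
      ⟨D, u, w₂ ++ v, χ₁, by simpa using hD, by simpa using hT, n1, c1, m3, rfl⟩,
      ⟨D, u ++ w₁, v, χ₂, by simpa using hD, by simpa using hT, n2, by rw [← eb, ← ea]; exact c2,
        by rw [← eb, ← ea]; exact m4, rfl⟩, ?_⟩
    rintro v₁ ⟨t1, u₁, y₁, R1⟩ v₂ ⟨t2, u₂, y₂, R2⟩
    set a := u.length with ha
    set m := u.length + w₁.length with hm
    set b := u.length + (w₁ ++ w₂).length with hb
    rw [← eb, ← ea] at R2
    set κ : ℕ → Fin 4 := fun t => col (χ₁ t) (χ₂ t) (χ t) with hκ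
    set f : ℕ → Fin 4 := fun p => col (iv a m p) (iv m b p) (iv a b p) with hf
    have key : ∀ x y z : Bool, (x = true → z = true) ∧ (y = true → z = true) ∧
        (x = true → y = false) →
        p0 (col x y z) = z ∧ p1 (col x y z) = x ∧ p2 (col x y z) = y := by decide
    have c4 : ∀ p, (iv a m p = true → iv a b p = true) ∧ (iv m b p = true → iv a b p = true) ∧
        (iv a m p = true → iv m b p = false) := by
      intro p
      simp only [iv]
      by_cases a ≤ p <;> by_cases b ≤ p <;> by_cases m ≤ p <;> simp [*] <;> omega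
    have j0 := pj_ftr (wk := wk4) (o := 0) (π := p0) (j := 0) (by decide) (by decide) G.S κ D f
      (u ++ (w₁ ++ w₂) ++ v)
    have j1 := pj_ftr (wk := wk4) (o := 0) (π := p1) (j := 1) (by decide) (by decide) G.S κ D f
      (u ++ (w₁ ++ w₂) ++ v)
    have j2 := pj_ftr (wk := wk4) (o := 0) (π := p2) (j := 2) (by decide) (by decide) G.S κ D f
      (u ++ (w₁ ++ w₂) ++ v)
    rw [show (fun q => p0 (κ q)) = χ from funext fun t => (key _ _ _ (c3 t)).1,
      show (fun q => p0 (f q)) = iv a b from funext fun t => (key _ _ _ (c4 t)).1] at j0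
    rw [show (fun q => p1 (κ q)) = χ₁ from funext fun t => (key _ _ _ (c3 t)).2.1,
      show (fun q => p1 (f q)) = iv a m from funext fun t => (key _ _ _ (c4 t)).2.1] at j1
    rw [show (fun q => p2 (κ q)) = χ₂ from funext fun t => (key _ _ _ (c3 t)).2.2,
      show (fun q => p2 (f q)) = iv m b from funext fun t => (key _ _ _ (c4 t)).2.2] at j2
    obtain ⟨r1, r2⟩ := ftr_spec (0 : Fin 4) walk_wk4 hS hR hP κ f hD
    have h0 : ∀ c, wk4 c c = [] := by decide
    have l1 := List.length_pos_iff.2 n1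
    have l2 := List.length_pos_iff.2 n2
    have hb' : b = u.length + w₁.length + w₂.length := by simp [hb, Nat.add_assoc]
    have shape : tokw wk4 0 f 0 0 (u ++ (w₁ ++ w₂) ++ v) =
        (sy u ++ [inr 0]) ++ inr 1 :: (sy w₁ ++ inr 1 :: inr 2 :: (sy w₂ ++ inr 2 :: inr 0 :: sy v)) := by
      rw [List.append_assoc, List.append_assoc, tokw_same h0 0 _ u 0 (by
          intro i hi; simp only [hf, iv]
          rw [decide_eq_false, decide_eq_false, decide_eq_false] <;> first | rfl | omega),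
        tokw_block h0 0 2 w₁ _ _ n1 (by
          intro i hi; simp only [hf, iv]
          rw [decide_eq_true, decide_eq_false, decide_eq_false] <;> first | rfl | omega),
        tokw_block h0 2 3 w₂ _ _ n2 (by
          intro i hi; simp only [hf, iv]
          rw [decide_eq_true, decide_eq_true, decide_eq_false] <;> first | rfl | omega),
        tokw_last h0 3 v _ (by
          intro i hi; simp only [hf, iv]
          rw [decide_eq_true, decide_eq_true, decide_eq_true] <;> first | rfl | omega)]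
      simp [wk4]
    rw [shape] at r1
    rw [show u ++ w₁ ++ (w₂ ++ v) = u ++ (w₁ ++ w₂) ++ v by simp, ← j1] at R1
    rw [show u ++ w₁ ++ w₂ ++ v = u ++ (w₁ ++ w₂) ++ v by simp, ← j2] at R2
    obtain ⟨s1, -⟩ := mix_run (δ := d4) (π := p1) (j := 1) (by unfold d4; decide)
      (by unfold d4; decide) (by decide) r1 r2 (A := [inl G.S]) rfl _ R1
    rw [mix_final 1 (by simp [pjT_cons]) (by simp [pjT_cons])] at s1
    have s1' : Run (RR G) [inl G.S] (ftr wk4 0 G.S κ D f (u ++ (w₁ ++ w₂) ++ v))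
        ((sy u ++ inr 0 :: inr 1 :: (sy v₁ ++ [inr 1])) ++
          inr 2 :: (sy w₂ ++ inr 2 :: inr 0 :: sy v)) := by
      simpa [mix, cp] using s1
    obtain ⟨s2, -⟩ := mix_run (δ := d4) (π := p2) (j := 2) (by unfold d4; decide)
      (by unfold d4; decide) (by decide) s1' r2 (A := [inl G.S]) rfl _ R2
    rw [mix_final 2 (by simp [pjT_cons]) (by simp [pjT_cons])] at s2
    have s3 := s2.proj 0
    rw [j0] at s3
    refine ⟨fun a ha => (List.mem_append.1 ha).elim (t1 a) (t2 a), u, v, ?_⟩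
    simpa [mix, cp, pj_inr] using s3
  · rintro w ⟨hT, hd⟩ hne
    obtain ⟨D, hD⟩ := exists_valid hd
    obtain ⟨χ, hχ⟩ := mu_ex D (iv 0 w.length)
    refine ⟨_, ⟨D, [], [], χ, by simpa using hD, by simpa using hT, hne, by simpa [cd] using hχ,
      by simpa using (cd_all hD).trans hK, rfl⟩, ?_⟩
    rintro w' ⟨t, u, v, R1⟩
    obtain ⟨r1, r2⟩ := ftr_spec false walk_wkB hS hR hP χ
      (iv ([] : List ℕ).length (([] : List ℕ).length + w.length)) (w := [] ++ w ++ [])
      (by simpa using hD)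
    rw [tokw_iv [] w [] hne] at r1
    have j0 := pj_ftr (wk := wkB) (o := false) (π := fun c => c) (j := ()) (fun c c' => pjT_unit _)
      rfl G.S χ D (iv ([] : List ℕ).length (([] : List ℕ).length + w.length)) ([] ++ w ++ [])
    rw [← j0] at R1
    obtain ⟨s1, -⟩ := mix_run (δ := dB) (π := fun c => c) (j := ()) (fun c t c' h => h)
      (fun _ _ _ _ _ => rfl) rfl r1 r2 (A := [inl G.S]) rfl _ R1
    rw [mix_final () (by simp) (by simp)] at s1
    have := s1.erase (G := G) (by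
      rintro l r (h | ⟨rfl, rfl⟩ | ⟨rfl, rfl⟩)
      · exact Or.inr h
      · exact Or.inl rfl
      · exact Or.inl rfl)
    exact ⟨t, by simpa [mix, cp] using this⟩

end Pool.Agent.MP_c20a26_lc
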