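import Pool.Agent.MP_c20a26_lc.Cut

set_option autoImplicit false

namespace Pool.Agent.MP_c20a26_lc

open Sum

/-- Words with separator tokens. -/
abbrev TW (J : Type) := List (ℕ ⊕ J)

variable {J : Type}

def er (W : TW J) : List ℕ := W.filterMap Sum.getLeft?
def tk (W : TW J) : List J := W.filterMap Sum.getRight?
def sy (w : List ℕ) : TW J := w.map inl
def tw (T : List J) : TW J := T.map inr

@[simp] theorem er_nil : er ([] : TW J) = [] := rfl
@[simp] theorem tk_nil : tk ([] : TW J) = [] := rfl
@[simp] theorem er_inl (a : ℕ) (W : TW J) : er (inl a :: W) = a :: er W := rfl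
@[simp] theorem er_inr (t : J) (W : TW J) : er (inr t :: W) = er W := rfl
@[simp] theorem tk_inl (a : ℕ) (W : TW J) : tk (inl a :: W) = tk W := rfl
@[simp] theorem tk_inr (t : J) (W : TW J) : tk (inr t :: W) = t :: tk W := rfl
@[simp] theorem er_append (W W' : TW J) : er (W ++ W') = er W ++ er W' := List.filterMap_append
@[simp] theorem tk_append (W W' : TW J) : tk (W ++ W') = tk W ++ tk W' := List.filterMap_append
@[simp] theorem sy_nil : (sy [] : TW J) = [] := rfl
@[simp] theorem sy_cons (a : ℕ) (w : List ℕ) : (sy (a :: w) : TW J) = inl a :: sy w := rfl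
@[simp] theorem sy_append (w w' : List ℕ) : (sy (w ++ w') : TW J) = sy w ++ sy w' :=
  List.map_append
@[simp] theorem tw_nil : tw ([] : List J) = [] := rfl
@[simp] theorem tw_cons (t : J) (T : List J) : tw (t :: T) = inr t :: tw T := rfl
@[simp] theorem er_sy (w : List ℕ) : er (sy w : TW J) = w := by
  induction w with
  | nil => rfl
  | cons a w ih => simp [ih]
@[simp] theorem tk_sy (w : List ℕ) : tk (sy w : TW J) = [] := by
  induction w with
  | nil => rfl
  | cons a w ih => simp [ih]
@[simp] theorem er_tw (T : List J) : er (tw T) = [] := by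
  induction T with
  | nil => rfl
  | cons a w ih => simp [ih]
@[simp] theorem tk_tw (T : List J) : tk (tw T) = T := by
  induction T with
  | nil => rfl
  | cons a w ih => simp [ih]

theorem length_er_tk (W : TW J) : W.length = (er W).length + (tk W).length := by
  induction W with
  | nil => rfl
  | cons s W ih => cases s <;> simp [ih] <;> omega

abbrev Lab (J : Type) := List J × TW J × TW J

open Classical in
/-- The label of a step: none if no token is involved. -/
noncomputable def lab (T : List J) (l r : TW J) : List (Lab J) :=
  if tk l = [] ∧ tk r = [] then [] else [(T, l, r)]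

theorem lab_silent (T : List J) {l r : TW J} (hl : tk l = []) (hr : tk r = []) :
    lab T l r = [] := if_pos ⟨hl, hr⟩

theorem lab_event (T : List J) {l r : TW J} (h : ¬ (tk l = [] ∧ tk r = [])) :
    lab T l r = [(T, l, r)] := if_neg h

/-- Runs on token words. -/
inductive Run (R : List ℕ → List ℕ → Prop) (W₀ : TW J) : List (Lab J) → TW J → Prop
  | refl : Run R W₀ [] W₀
  | step {Λ : List (Lab J)} {x l r y : TW J} : Run R W₀ Λ (x ++ l ++ y) → R (er l) (er r) →
      Run R W₀ (Λ ++ lab (tk x) l r) (x ++ r ++ y)

variable {R : List ℕ → List ℕ → Prop}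

theorem Run.trans {A B C : TW J} {Λ Λ' : List (Lab J)} (h : Run R A Λ B) (h' : Run R B Λ' C) :
    Run R A (Λ ++ Λ') C := by
  induction h' with
  | refl => simpa using h
  | step _ hr ih =>
    rw [← List.append_assoc]
    exact Run.step ih hr

theorem Run.single {x l r y : TW J} (hr : R (er l) (er r)) :
    Run R (x ++ l ++ y) (lab (tk x) l r) (x ++ r ++ y) := by
  simpa using Run.step (Run.refl (R := R) (W₀ := x ++ l ++ y)) hr

theorem Run.erase {G : Grammar} (hR : ∀ l r, R l r → l = r ∨ (l, r) ∈ G.P) {A B : TW J}
    {Λ : List (Lab J)} (h : Run R A Λ B) : Relation.ReflTransGen G.Step (er A) (er B) := by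
  induction h with
  | refl => exact Relation.ReflTransGen.refl
  | @step Λ x l r y _ hr ih =>
    rcases hR _ _ hr with e | e
    · simpa [e] using ih
    · exact ih.tail ⟨er x, er y, _, e, by simp, by simp⟩

theorem Run.decomp {A B : TW J} {Λ : List (Lab J)} (h : Run R A Λ B) :
    ∀ τ e, Λ = τ ++ [e] → ∃ x l r y, Run R A τ (x ++ l ++ y) ∧ R (er l) (er r) ∧
      e = (tk x, l, r) ∧ Run R (x ++ r ++ y) [] B := by
  induction h with
  | refl => intro τ e h; simp at h
  | @step Λ x l r y h0 hr ih =>
    intro τ e h
    by_cases hs : tk l = [] ∧ tk r = []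
    · rw [lab_silent _ hs.1 hs.2, List.append_nil] at h
      obtain ⟨x', l', r', y', h1, h2, h3, h4⟩ := ih τ e h
      refine ⟨x', l', r', y', h1, h2, h3, ?_⟩
      have := Run.step h4 hr
      rwa [lab_silent _ hs.1 hs.2] at this
    · rw [lab_event _ hs] at h
      obtain ⟨e1, e2⟩ := List.append_inj' h rfl
      subst e1
      exact ⟨x, l, r, y, h0, hr, (List.singleton_inj.1 e2).symm, Run.refl⟩

section Proj
variable [DecidableEq J]

def pjT (j : J) (T : List J) : List Unit := T.filterMap fun t => if t = j then some () else none

def pj (j : J) : TW J → TW Unit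
  | [] => []
  | inl a :: W => inl a :: pj j W
  | inr t :: W => if t = j then inr () :: pj j W else pj j W

@[simp] theorem pjT_nil (j : J) : pjT j [] = [] := rfl
theorem pjT_cons (j t : J) (T : List J) :
    pjT j (t :: T) = if t = j then () :: pjT j T else pjT j T := by
  unfold pjT
  by_cases h : t = j <;> simp [h]
@[simp] theorem pjT_append (j : J) (T T' : List J) : pjT j (T ++ T') = pjT j T ++ pjT j T' :=
  List.filterMap_append

@[simp] theorem pj_nil (j : J) : pj j [] = [] := rfl
@[simp] theorem pj_inl (j : J) (a : ℕ) (W : TW J) : pj j (inl a :: W) = inl a :: pj j W := rfl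
theorem pj_inr (j t : J) (W : TW J) :
    pj j (inr t :: W) = if t = j then inr () :: pj j W else pj j W := rfl

@[simp] theorem pj_append (j : J) (W W' : TW J) : pj j (W ++ W') = pj j W ++ pj j W' := by
  induction W with
  | nil => rfl
  | cons s W ih =>
    cases s with
    | inl a => simp [ih]
    | inr t => simp only [List.cons_append, pj_inr, ih]; split_ifs <;> simp

@[simp] theorem er_pj (j : J) (W : TW J) : er (pj j W) = er W := by
  induction W with
  | nil => rfl
  | cons s W ih =>
    cases s with
    | inl a => simp [ih]
    | inr t => simp only [pj_inr]; split_ifs <;> simp [ih]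

@[simp] theorem tk_pj (j : J) (W : TW J) : tk (pj j W) = pjT j (tk W) := by
  induction W with
  | nil => rfl
  | cons s W ih =>
    cases s with
    | inl a => simp [ih]
    | inr t => simp only [pj_inr, tk_inr, pjT_cons]; split_ifs <;> simp [ih]

@[simp] theorem pj_sy (j : J) (w : List ℕ) : pj j (sy w) = sy w := by
  induction w with
  | nil => rfl
  | cons a w ih => simp [ih]

theorem pj_tw (j : J) (T : List J) : pj j (tw T) = tw (pjT j T) := by
  induction T with
  | nil => rfl
  | cons a w ih => simp only [tw_cons, pj_inr, pjT_cons, ih]; split_ifs <;> simp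

noncomputable def pjL (j : J) (Λ : List (Lab J)) : List (Lab Unit) :=
  Λ.flatMap fun e => lab (pjT j e.1) (pj j e.2.1) (pj j e.2.2)

@[simp] theorem pjL_nil (j : J) : pjL j [] = [] := rfl
@[simp] theorem pjL_append (j : J) (Λ Λ' : List (Lab J)) :
    pjL j (Λ ++ Λ') = pjL j Λ ++ pjL j Λ' := List.flatMap_append

theorem pjL_lab (j : J) (T : List J) (l r : TW J) :
    pjL j (lab T l r) = lab (pjT j T) (pj j l) (pj j r) := by
  by_cases hs : tk l = [] ∧ tk r = []
  · rw [lab_silent _ hs.1 hs.2, lab_silent _ (by simp [hs.1]) (by simp [hs.2])]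
    rfl
  · rw [lab_event _ hs]
    simp [pjL]

theorem Run.proj (j : J) {A B : TW J} {Λ : List (Lab J)} (h : Run R A Λ B) :
    Run R (pj j A) (pjL j Λ) (pj j B) := by
  induction h with
  | refl => exact Run.refl
  | @step Λ x l r y _ hr ih =>
    rw [pjL_append, pjL_lab, ← tk_pj]
    simp only [pj_append] at ih ⊢
    exact Run.step ih (by simpa using hr)

/-- Copy the first segment when `b` holds. -/
def cp (b : Bool) : TW Unit → TW J
  | [] => []
  | inl a :: W => if b then inl a :: cp b W else cp b W
  | inr _ :: _ => []

/-- Drop the first segment and the first token. -/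
def af : TW Unit → TW Unit
  | [] => []
  | inl _ :: W => af W
  | inr _ :: W => W

/-- Even segments from the first word, odd segments from the second. -/
def mix (j : J) : Bool → TW J → TW Unit → TW J
  | b, [], W' => cp b W'
  | b, inl a :: W, W' => if b then mix j b W W' else inl a :: mix j b W W'
  | b, inr t :: W, W' =>
    if t = j then cp b W' ++ inr t :: mix j (!b) W (af W')
    else if b then mix j b W W' else inr t :: mix j b W W'

def fl (j : J) : Bool → List J → Bool
  | b, [] => b
  | b, t :: T => fl j (if t = j then !b else b) T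

omit [DecidableEq J] in
theorem cp_false (W : TW Unit) : (cp false W : TW J) = [] := by
  induction W with
  | nil => rfl
  | cons s W ih => cases s <;> simp [cp, ih]

omit [DecidableEq J] in
theorem tk_cp (b : Bool) (W : TW Unit) : tk (cp b W : TW J) = [] := by
  induction W with
  | nil => rfl
  | cons s W ih => cases s <;> cases b <;> simp [cp, ih]

omit [DecidableEq J] in
theorem er_cp {W : TW Unit} (h : tk W = []) : er (cp true W : TW J) = er W := by
  induction W with
  | nil => rfl
  | cons s W ih =>
    cases s with
    | inl a => simp [cp, ih (by simpa using h)]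
    | inr t => simp at h

omit [DecidableEq J] in
theorem cp_append (b : Bool) {x : TW Unit} (h : tk x = []) (z : TW Unit) :
    (cp b (x ++ z) : TW J) = cp b x ++ cp b z := by
  induction x with
  | nil => rfl
  | cons s x ih =>
    cases s with
    | inl a => cases b <;> simp [cp, ih (by simpa using h)]
    | inr t => simp at h

theorem af_append {x : TW Unit} (h : tk x = []) (z : TW Unit) : af (x ++ z) = af z := by
  induction x with
  | nil => rfl
  | cons s x ih =>
    cases s with
    | inl a => simp [af, ih (by simpa using h)]
    | inr t => simp at h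

omit [DecidableEq J] in
theorem cp_append' (b : Bool) {x : TW Unit} (h : tk x ≠ []) (z : TW Unit) :
    (cp b (x ++ z) : TW J) = cp b x := by
  induction x with
  | nil => simp at h
  | cons s x ih =>
    cases s with
    | inl a => cases b <;> simp [cp, ih (by simpa using h)]
    | inr t => simp [cp]

theorem af_append' {x : TW Unit} (h : tk x ≠ []) (z : TW Unit) : af (x ++ z) = af x ++ z := by
  induction x with
  | nil => simp at h
  | cons s x ih =>
    cases s with
    | inl a => simp [af, ih (by simpa using h)]
    | inr t => simp [af]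

theorem tk_af (x : TW Unit) : (tk (af x)).length = (tk x).length - 1 := by
  induction x with
  | nil => rfl
  | cons s x ih => cases s <;> simp [af, ih]

theorem mix_base (j : J) {x : TW Unit} (h : tk x = []) (z' : TW Unit) :
    ∀ (z : TW J) (b : Bool), mix j b z (x ++ z') = cp b x ++ mix j b z z'
  | [], b => cp_append b h z'
  | inl a :: z, b => by
    cases b <;> simp [mix, mix_base j h z' z, cp_false]
  | inr t :: z, b => by
    simp only [mix, cp_append b h, af_append h]
    split_ifs with h1 h2
    · simp
    · exact mix_base j h z' z b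
    · have : b = false := by simpa using h2
      subst this
      simp [mix_base j h z' z, cp_false]

theorem mix_append (j : J) (z : TW J) (z' : TW Unit) : ∀ (x : TW J) (x' : TW Unit) (b : Bool),
    (pjT j (tk x)).length = (tk x').length →
    mix j b (x ++ z) (x' ++ z') = mix j b x x' ++ mix j (fl j b (tk x)) z z'
  | [], x', b, h => by
    have : tk x' = [] := List.length_eq_zero_iff.1 (by simpa using h.symm)
    simpa [mix, fl] using mix_base j this z' z b
  | inl a :: x, x', b, h => by
    have ih := mix_append j z z' x x' b (by simpa using h)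
    cases b <;> simp [mix, ih]
  | inr t :: x, x', b, h => by
    simp only [tk_inr, pjT_cons] at h
    simp only [List.cons_append, mix, tk_inr, fl]
    split_ifs with h1 h2
    · rw [if_pos h1] at h
      have hne : tk x' ≠ [] := by
        intro e
        rw [e] at h
        simp at h
      rw [cp_append' b hne, af_append' hne, mix_append j z z' x (af x') (!b) (by
        rw [tk_af, ← h]; simp)]
      simp
    · rw [if_neg h1] at h
      exact mix_append j z z' x x' b h
    · rw [if_neg h1] at h
      rw [mix_append j z z' x x' b h]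
      simp

theorem mix_nil (j : J) : ∀ (l : TW J), pjT j (tk l) = [] →
    mix j true l [] = [] ∧ mix j false l [] = l ∧ ∀ b, fl j b (tk l) = b
  | [], _ => ⟨rfl, rfl, fun _ => rfl⟩
  | inl a :: l, h => by
    obtain ⟨h1, h2, h3⟩ := mix_nil j l (by simpa using h)
    simp [mix, h1, h2, h3]
  | inr t :: l, h => by
    simp only [tk_inr, pjT_cons] at h
    have ht : t ≠ j := by
      intro e
      rw [if_pos e] at h
      simp at h
    rw [if_neg ht] at h
    obtain ⟨h1, h2, h3⟩ := mix_nil j l h
    simp [mix, h1, h2, h3, ht, fl]

theorem split_cnt (j : J) : ∀ (W : TW J) (n : ℕ), n ≤ (pjT j (tk W)).length →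
    ∃ x y, W = x ++ y ∧ (pjT j (tk x)).length = n
  | W, 0, _ => ⟨[], W, rfl, rfl⟩
  | [], n + 1, h => by simp at h
  | inl a :: W, n + 1, h => by
    obtain ⟨x, y, e, hx⟩ := split_cnt j W (n + 1) (by simpa using h)
    exact ⟨inl a :: x, y, by simp [e], by simpa using hx⟩
  | inr t :: W, n + 1, h => by
    simp only [tk_inr, pjT_cons] at h
    by_cases ht : t = j
    · rw [if_pos ht] at h
      obtain ⟨x, y, e, hx⟩ := split_cnt j W n (by simpa using h)
      exact ⟨inr t :: x, y, by simp [e], by simp [pjT_cons, ht, hx]⟩
    · rw [if_neg ht] at h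
      obtain ⟨x, y, e, hx⟩ := split_cnt j W (n + 1) h
      exact ⟨inr t :: x, y, by simp [e], by simp [pjT_cons, ht, hx]⟩

theorem pjT_unit (T : List Unit) : pjT () T = T := by
  induction T with
  | nil => rfl
  | cons t T ih => simp [pjT_cons, ih]

theorem mix_right (j : J) (W : TW J) {A B : TW Unit} {Λ : List (Lab Unit)} (h : Run R A Λ B)
    (hΛ : Λ = []) (hc : (pjT j (tk W)).length = (tk A).length) :
    Run R (mix j false W A) [] (mix j false W B) ∧ (pjT j (tk W)).length = (tk B).length := by
  induction h with
  | refl => exact ⟨Run.refl, hc⟩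
  | @step Λ x l r y _ hr ih =>
    obtain ⟨e1, e2⟩ := List.append_eq_nil_iff.1 hΛ
    have hs : tk l = [] ∧ tk r = [] := by
      by_contra hs
      rw [lab_event _ hs] at e2
      simp at e2
    obtain ⟨h1, h2⟩ := ih e1
    refine ⟨?_, by simpa [hs.1, hs.2] using h2⟩
    obtain ⟨x0, y0, rfl, hx⟩ := split_cnt j W (tk x).length (by rw [h2]; simp)
    rw [List.append_assoc, mix_append j _ _ _ _ _ hx, mix_base j hs.1] at h1
    rw [List.append_assoc, mix_append j _ _ _ _ _ hx, mix_base j hs.2]
    cases hb : fl j false (tk x0) with
    | false =>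
      rw [hb, cp_false] at h1
      rwa [cp_false]
    | true =>
      rw [hb, ← List.append_assoc] at h1
      have := Run.step h1 (r := cp true r) (by rwa [er_cp hs.1, er_cp hs.2])
      rwa [lab_silent _ (tk_cp _ _) (tk_cp _ _), List.append_assoc] at this

end Proj

/-- Walks in a colour graph. -/
inductive Walk {C : Type} (δ : C → J → C → Prop) : C → List J → C → Prop
  | nil (c : C) : Walk δ c [] c
  | cons {c c' c'' : C} {t : J} {T : List J} : δ c t c' → Walk δ c' T c'' → Walk δ c (t :: T) c''

theorem Walk.append {C : Type} {δ : C → J → C → Prop} {a b c : C} {T T' : List J}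
    (h : Walk δ a T b) (h' : Walk δ b T' c) : Walk δ a (T ++ T') c := by
  induction h with
  | nil => exact h'
  | cons h1 _ ih => exact Walk.cons h1 (ih h')

theorem Walk.of_nil {C : Type} {δ : C → J → C → Prop} {a b : C} (h : Walk δ a [] b) : a = b := by
  cases h
  rfl

/-- Admissible labels. -/
def LabOK {C : Type} (δ : C → J → C → Prop) (o : C) (e : Lab J) : Prop :=
  ∃ c c', Walk δ o e.1 c ∧ Walk δ c (tk e.2.1) c' ∧ Walk δ c (tk e.2.2) c'

section Mix
variable [DecidableEq J] {C : Type} {δ : C → J → C → Prop} {π : C → Bool} {j : J}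
  (H1 : ∀ c t c', δ c t c' → π c' = if t = j then !π c else π c)
  (H2 : ∀ c t c', δ c t c' → π c = true → t = j)
include H1

theorem walk_fl {c c' : C} {T : List J} (h : Walk δ c T c') : fl j (π c) T = π c' := by
  induction h with
  | nil => rfl
  | cons h1 _ ih => rw [fl, ← H1 _ _ _ h1, ih]

include H2

theorem mix_sync : ∀ (l : TW J) (c c' : C), Walk δ c (tk l) c' → mix j (π c) l (pj j l) = l
  | [], c, _, _ => by cases π c <;> rfl
  | inl a :: l, c, c', h => by
    have ih := mix_sync l c c' (by simpa using h)
    have hb := mix_base j (x := [inl a]) rfl (pj j l) l (π c)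
    simp only [List.singleton_append] at hb
    simp only [mix, pj_inl, hb, ih]
    cases π c <;> simp [cp]
  | inr t :: l, c, c', h => by
    rw [tk_inr] at h
    cases h with
    | cons h1 h2 =>
      have ih := mix_sync l _ c' h2
      rw [H1 _ _ _ h1] at ih
      by_cases ht : t = j
      · rw [if_pos ht] at ih
        simp [mix, pj_inr, ht, cp, af, ih]
      · rw [if_neg ht] at ih
        have : π c = false := by
          by_contra hh
          exact ht (H2 _ _ _ h1 (by simpa using hh))
        rw [this] at ih
        simp [mix, pj_inr, ht, this, ih]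

theorem mix_tk : ∀ (x : TW J) (x' : TW Unit) (c c' : C), Walk δ c (tk x) c' →
    tk (mix j (π c) x x') = tk x
  | [], x', c, _, _ => tk_cp _ _
  | inl a :: x, x', c, c', h => by
    have ih := mix_tk x x' c c' (by simpa using h)
    simp only [mix]
    split_ifs <;> simpa using ih
  | inr t :: x, x', c, c', h => by
    rw [tk_inr] at h
    cases h with
    | cons h1 h2 =>
      by_cases ht : t = j
      · have ih := mix_tk x (af x') _ c' h2
        rw [H1 _ _ _ h1, if_pos ht] at ih
        simp [mix, ht, tk_cp, ih]
      · have ih := mix_tk x x' _ c' h2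
        rw [H1 _ _ _ h1, if_neg ht] at ih
        have : π c = false := by
          by_contra hh
          exact ht (H2 _ _ _ h1 (by simpa using hh))
        rw [this] at ih
        simp [mix, ht, this, ih]

omit H1 in
theorem walk_foreign {c c' : C} {T : List J} (h : Walk δ c T c') (hT : T ≠ [])
    (hj : pjT j T = []) : π c = false := by
  cases h with
  | nil => exact absurd rfl hT
  | cons h1 _ =>
    by_contra hh
    have := H2 _ _ _ h1 (by simpa using hh)
    rw [pjT_cons, if_pos this] at hj
    simp at hj

theorem mix_run {o : C} (ho : π o = false) {W₀ W : TW J} {Λ : List (Lab J)}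
    (h : Run R W₀ Λ W) (hΛ : ∀ e ∈ Λ, LabOK δ o e) {A : TW Unit}
    (hc : (pjT j (tk W₀)).length = (tk A).length) :
    ∀ B, Run R A (pjL j Λ) B →
      Run R (mix j false W₀ A) Λ (mix j false W B) ∧ (pjT j (tk W)).length = (tk B).length := by
  induction h with
  | refl => intro B hB; exact mix_right j W₀ hB rfl hc
  | @step Λ x l r y _ hr ih =>
    intro B hB
    have ih' := ih fun e he => hΛ e (List.mem_append_left _ he)
    rw [pjL_append, pjL_lab] at hB
    by_cases hs : pjT j (tk l) = [] ∧ pjT j (tk r) = []
    · rw [lab_silent _ (by simp [hs.1]) (by simp [hs.2]), List.append_nil] at hB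
      obtain ⟨h1, h2⟩ := ih' B hB
      refine ⟨?_, by simpa [hs.1, hs.2] using h2⟩
      obtain ⟨x', y', rfl, hx⟩ := split_cnt () B (pjT j (tk x)).length (by
        rw [pjT_unit, ← h2]; simp)
      rw [pjT_unit] at hx
      have el := mix_append j y y' l [] (fl j false (tk x)) (by simp [hs.1])
      have er' := mix_append j y y' r [] (fl j false (tk x)) (by simp [hs.2])
      rw [List.nil_append, (mix_nil j l hs.1).2.2] at el
      rw [List.nil_append, (mix_nil j r hs.2).2.2] at er'
      rw [List.append_assoc, mix_append j _ _ _ _ _ hx.symm, el] at h1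
      rw [List.append_assoc, mix_append j _ _ _ _ _ hx.symm, er']
      by_cases hs' : tk l = [] ∧ tk r = []
      · rw [lab_silent _ hs'.1 hs'.2, List.append_nil]
        cases hb : fl j false (tk x) with
        | true =>
          rw [hb, (mix_nil j l hs.1).1] at h1
          rwa [(mix_nil j r hs.2).1]
        | false =>
          rw [hb, (mix_nil j l hs.1).2.1, ← List.append_assoc] at h1
          rw [(mix_nil j r hs.2).2.1, ← List.append_assoc]
          have := Run.step h1 hr
          rwa [lab_silent _ hs'.1 hs'.2, List.append_nil] at this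
      · obtain ⟨c, c', w1, w2, w3⟩ := hΛ (tk x, l, r) (by rw [lab_event _ hs']; simp)
        have hb : fl j false (tk x) = false := by
          rw [← ho, walk_fl H1 w1, ho]
          by_cases hl : tk l = []
          · exact walk_foreign H2 w3 (fun hr' => hs' ⟨hl, hr'⟩) hs.2
          · exact walk_foreign H2 w2 hl hs.1
        rw [hb, (mix_nil j l hs.1).2.1, ← List.append_assoc] at h1
        rw [hb, (mix_nil j r hs.2).2.1, ← List.append_assoc]
        have := Run.step h1 hr
        have et := mix_tk H1 H2 x x' o c w1
        rw [ho] at et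
        rwa [et] at this
    · have hs' : ¬ (tk l = [] ∧ tk r = []) := fun h => hs ⟨by simp [h.1], by simp [h.2]⟩
      rw [lab_event _ (by simpa using hs)] at hB
      obtain ⟨x', l', r', y', h1, -, h3, h4⟩ := hB.decomp _ _ rfl
      simp only [Prod.mk.injEq] at h3
      obtain ⟨e1, rfl, rfl⟩ := h3
      obtain ⟨k1, k2⟩ := ih' _ h1
      obtain ⟨c, c', w1, w2, w3⟩ := hΛ (tk x, l, r) (by rw [lab_event _ hs']; simp)
      have hb : fl j false (tk x) = π c := by rw [← ho, walk_fl H1 w1]
      have hx : (pjT j (tk x)).length = (tk x').length := by rw [e1]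
      rw [List.append_assoc, List.append_assoc, mix_append j _ _ _ _ _ hx, hb,
        mix_append j _ _ l _ _ (by simp), mix_sync H1 H2 l c c' w2, walk_fl H1 w2,
        ← List.append_assoc] at k1
      have hc2 : (pjT j (tk (x ++ r ++ y))).length = (tk (x' ++ pj j r ++ y')).length := by
        simp only [tk_append, pjT_append, List.length_append, tk_pj] at k2 ⊢
        omega
      obtain ⟨m1, m2⟩ := mix_right j (x ++ r ++ y) h4 rfl hc2
      refine ⟨?_, m2⟩
      have := Run.step k1 hr
      have et := mix_tk H1 H2 x x' o c w1
      rw [ho] at et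
      rw [et] at this
      have e3 : mix j false (x ++ r ++ y) (x' ++ pj j r ++ y') =
          mix j false x x' ++ r ++ mix j (π c') y y' := by
        rw [List.append_assoc, List.append_assoc, mix_append j _ _ _ _ _ hx, hb,
          mix_append j _ _ r _ _ (by simp), mix_sync H1 H2 r c c' w3, walk_fl H1 w3,
          ← List.append_assoc]
      rw [← e3] at this
      simpa using this.trans m1

end Mix

theorem mix_final [DecidableEq J] (j : J) {x y : TW J} (hx : pjT j (tk x) = [])
    (hy : pjT j (tk y) = []) (a u w v : List ℕ) :
    mix j false (x ++ inr j :: (sy a ++ inr j :: y)) (sy u ++ inr () :: (sy w ++ inr () :: sy v)) =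
      x ++ inr j :: (sy w ++ inr j :: y) := by
  have cpw : ∀ w : List ℕ, (cp true (sy w) : TW J) = sy w := by
    intro w
    induction w with
    | nil => rfl
    | cons a w ih => simp [cp, ih]
  have e0 : ∀ (z : TW J) (u : List ℕ), pjT j (tk z) = [] → mix j false z (sy u) = z := by
    intro z u hz
    have := mix_base j (x := sy u) (by simp) [] z false
    rw [List.append_nil, cp_false, (mix_nil j z hz).2.1] at this
    simpa using this
  have e1 : mix j true (sy a) (sy w) = sy w := by
    have := mix_base j (x := sy w) (by simp) [] (sy a) true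
    rw [List.append_nil, cpw, (mix_nil j (sy a) (by simp)).1] at this
    simpa using this
  rw [mix_append j _ _ x (sy u) false (by simp [hx]), e0 x u hx, (mix_nil j x hx).2.2]
  simp only [mix, if_true, cp, af, List.nil_append, Bool.not_false]
  rw [mix_append j _ _ (sy a) (sy w) true (by simp), e1]
  simp [mix, fl, cp, af, e0 y v hy]

end Pool.Agent.MP_c20a26_lc
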